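import Pool.Agent.Lib_helper48.JB.Tracial

set_option autoImplicit false

/-!
Planes on which the `S_4` norm is Hilbertian.
-/

namespace Pool.Agent.Lib_helper48.JB

open scoped Matrix.Norms.L2Operator

/-- the coefficient identities -/
lemma coeff_identities {a b k1 k2 : ℝ} {c α β γ : ℂ}
    (hid : ∀ w : ℂ, (a + b * Complex.normSq w + 2 * (w * c).re) ^ 2
      - 2 * Complex.normSq (α + β * w + γ * w ^ 2) = 2 * (k1 + k2 * Complex.normSq w) ^ 2) :
    a ^ 2 - 2 * Complex.normSq α = 2 * k1 ^ 2 ∧ b ^ 2 - 2 * Complex.normSq γ = 2 * k2 ^ 2 ∧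
    (a : ℂ) * c = (starRingEnd ℂ) α * β ∧ (b : ℂ) * c = (starRingEnd ℂ) β * γ ∧
    c ^ 2 = 2 * ((starRingEnd ℂ) α * γ) ∧
    a * b + Complex.normSq c - Complex.normSq β = 2 * k1 * k2 := by
  have key : ∀ w : ℂ,
      (a ^ 2 - 2 * Complex.normSq α - 2 * k1 ^ 2 = 0) ∧
      (a * (w * c).re - ((starRingEnd ℂ) α * β * w).re = 0) ∧
      (2 * a * b * Complex.normSq w + 4 * (w * c).re ^ 2 - 2 * Complex.normSq β * Complex.normSq w
        - 4 * ((starRingEnd ℂ) α * γ * w ^ 2).re - 4 * k1 * k2 * Complex.normSq w = 0) ∧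
      (Complex.normSq w * (b * (w * c).re - ((starRingEnd ℂ) β * γ * w).re) = 0) ∧
      ((b ^ 2 - 2 * Complex.normSq γ - 2 * k2 ^ 2) * Complex.normSq w ^ 2 = 0) := by
    intro w
    have hexp : ∀ t : ℝ, (a ^ 2 - 2 * Complex.normSq α - 2 * k1 ^ 2)
        + (4 * (a * (w * c).re - ((starRingEnd ℂ) α * β * w).re)) * t
        + (2 * a * b * Complex.normSq w + 4 * (w * c).re ^ 2
          - 2 * Complex.normSq β * Complex.normSq w
          - 4 * ((starRingEnd ℂ) α * γ * w ^ 2).re - 4 * k1 * k2 * Complex.normSq w) * t ^ 2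
        + (4 * (Complex.normSq w * (b * (w * c).re - ((starRingEnd ℂ) β * γ * w).re))) * t ^ 3
        + ((b ^ 2 - 2 * Complex.normSq γ - 2 * k2 ^ 2) * Complex.normSq w ^ 2) * t ^ 4 = 0 := by
      intro t
      have h := hid ((t : ℂ) * w)
      simp only [Complex.normSq_apply, Complex.add_re, Complex.add_im, Complex.mul_re,
        Complex.mul_im, Complex.ofReal_re, Complex.ofReal_im, Complex.conj_re, Complex.conj_im,
        pow_two] at h ⊢
      linear_combination h
    have e0 := hexp 0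
    have e1 := hexp 1
    have e2 := hexp (-1)
    have e3 := hexp 2
    have e4 := hexp (-2)
    set p0 := a ^ 2 - 2 * Complex.normSq α - 2 * k1 ^ 2
    set p1 := a * (w * c).re - ((starRingEnd ℂ) α * β * w).re
    set p2 := 2 * a * b * Complex.normSq w + 4 * (w * c).re ^ 2
          - 2 * Complex.normSq β * Complex.normSq w
          - 4 * ((starRingEnd ℂ) α * γ * w ^ 2).re - 4 * k1 * k2 * Complex.normSq w
    set p3 := Complex.normSq w * (b * (w * c).re - ((starRingEnd ℂ) β * γ * w).re)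
    set p4 := (b ^ 2 - 2 * Complex.normSq γ - 2 * k2 ^ 2) * Complex.normSq w ^ 2
    norm_num at e0 e1 e2 e3 e4
    refine ⟨by linarith, by linarith, by linarith, by linarith, by linarith⟩
  obtain ⟨a0, a1, a2, a3, a4⟩ := key 1
  obtain ⟨-, b1, b2, b3, -⟩ := key Complex.I
  obtain ⟨-, -, c2, -, -⟩ := key (1 + Complex.I)
  simp only [Complex.normSq_apply, Complex.add_re, Complex.add_im, Complex.mul_re,
        Complex.mul_im, Complex.ofReal_re, Complex.ofReal_im, Complex.conj_re, Complex.conj_im,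
        pow_two, Complex.one_re, Complex.one_im, Complex.I_re, Complex.I_im] at a0 a1 a2 a3 a4 b1 b2 b3 c2
  refine ⟨?_, ?_, ?_, ?_, ?_, ?_⟩
  · simp only [Complex.normSq_apply]; linarith
  · simp only [Complex.normSq_apply]; linarith
  · apply Complex.ext
    · simp only [Complex.mul_re, Complex.ofReal_re, Complex.ofReal_im, Complex.conj_re,
        Complex.conj_im]; linarith
    · simp only [Complex.mul_im, Complex.ofReal_re, Complex.ofReal_im, Complex.conj_re,
        Complex.conj_im]; linarith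
  · apply Complex.ext
    · simp only [Complex.mul_re, Complex.ofReal_re, Complex.ofReal_im, Complex.conj_re,
        Complex.conj_im]; linarith
    · simp only [Complex.mul_im, Complex.ofReal_re, Complex.ofReal_im, Complex.conj_re,
        Complex.conj_im]; linarith
  · apply Complex.ext
    · simp only [Complex.mul_re, Complex.mul_im, Complex.conj_re,
        Complex.conj_im, pow_two]
      norm_num
      linarith
    · simp only [Complex.mul_re, Complex.mul_im, Complex.conj_re,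
        Complex.conj_im, pow_two]
      norm_num
      linarith
  · simp only [Complex.normSq_apply]; linarith

lemma plane_abstract {a b k1 k2 : ℝ} {c α β γ : ℂ} (ha : 0 ≤ a) (hb : 0 ≤ b) (hk1 : 0 < k1)
    (hk2 : 0 < k2) (hcs : Complex.normSq c ≤ a * b)
    (hid : ∀ w : ℂ, (a + b * Complex.normSq w + 2 * (w * c).re) ^ 2
      - 2 * Complex.normSq (α + β * w + γ * w ^ 2) = 2 * (k1 + k2 * Complex.normSq w) ^ 2) :
    c = 0 ∧ α = 0 ∧ β = 0 ∧ γ = 0 ∧ a = Real.sqrt 2 * k1 ∧ b = Real.sqrt 2 * k2 := by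
  obtain ⟨h0, h5, h1, h3, h2, h4⟩ := coeff_identities hid
  have hk : 0 < k1 * k2 := mul_pos hk1 hk2
  have hc : c = 0 := by
    by_contra hne
    have e1 : ((a * b : ℝ) : ℂ) * c ^ 2 = (Complex.normSq β : ℂ) * (c ^ 2 / 2) := by
      rw [h2]
      have e2 : ((a * b : ℝ) : ℂ) * c ^ 2 = ((a : ℂ) * c) * ((b : ℂ) * c) := by push_cast; ring
      rw [← h2, e2, h1, h3, h2, ← Complex.mul_conj]
      ring
    have e3 : ((a * b : ℝ) : ℂ) = ((Complex.normSq β / 2 : ℝ) : ℂ) := by
      have hc2 : c ^ 2 ≠ 0 := pow_ne_zero 2 hne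
      apply mul_right_cancel₀ hc2
      rw [e1]; push_cast; ring
    have e4 : a * b = Complex.normSq β / 2 := by exact_mod_cast e3
    nlinarith
  have hn : ∀ z : ℂ, Complex.normSq z = 0 → z = 0 := fun z hz => Complex.normSq_eq_zero.1 hz
  rw [hc] at h1 h2 h3 h4
  rw [mul_zero] at h1 h3
  rw [Complex.normSq_zero, add_zero] at h4
  have hαβ : Complex.normSq α * Complex.normSq β = 0 := by
    have := congrArg Complex.normSq h1
    rw [map_zero, map_mul, Complex.normSq_conj] at this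
    exact this.symm
  have hβγ : Complex.normSq β * Complex.normSq γ = 0 := by
    have := congrArg Complex.normSq h3
    rw [map_zero, map_mul, Complex.normSq_conj] at this
    exact this.symm
  have nα := Complex.normSq_nonneg α
  have nβ := Complex.normSq_nonneg β
  have nγ := Complex.normSq_nonneg γ
  have hβ : Complex.normSq β = 0 := by
    by_contra hne
    have hα0 : Complex.normSq α = 0 := by
      rcases mul_eq_zero.1 hαβ with h | h
      · exact h
      · exact absurd h hne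
    have hγ0 : Complex.normSq γ = 0 := by
      rcases mul_eq_zero.1 hβγ with h | h
      · exact absurd h hne
      · exact h
    rw [hα0] at h0
    rw [hγ0] at h5
    have e5 : (a * b) ^ 2 = (2 * k1 * k2) ^ 2 := by
      calc (a * b) ^ 2 = (a ^ 2 - 2 * 0) * (b ^ 2 - 2 * 0) := by ring
        _ = (2 * k1 * k2) ^ 2 := by rw [h0, h5]; ring
    have e6 : a * b = 2 * k1 * k2 :=
      (sq_eq_sq₀ (mul_nonneg ha hb) (by positivity)).1 e5
    apply hne; linarith
  rw [hβ, sub_zero] at h4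
  have e7 : (2 * k1 ^ 2 + 2 * Complex.normSq α) * (2 * k2 ^ 2 + 2 * Complex.normSq γ)
      = 4 * k1 ^ 2 * k2 ^ 2 := by
    calc (2 * k1 ^ 2 + 2 * Complex.normSq α) * (2 * k2 ^ 2 + 2 * Complex.normSq γ)
        = a ^ 2 * b ^ 2 := by rw [← h0, ← h5]; ring
      _ = (a * b) ^ 2 := by ring
      _ = 4 * k1 ^ 2 * k2 ^ 2 := by rw [h4]; ring
  have hk1' : 0 < k1 ^ 2 := by positivity
  have hk2' : 0 < k2 ^ 2 := by positivity
  have hα : Complex.normSq α = 0 := by nlinarith [mul_nonneg nα nγ, mul_nonneg nγ hk1'.le]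
  have hγ : Complex.normSq γ = 0 := by nlinarith [mul_nonneg nα nγ, mul_nonneg nα hk2'.le]
  refine ⟨hc, hn _ hα, hn _ hβ, hn _ hγ, ?_, ?_⟩
  · have e8 : a ^ 2 = (Real.sqrt 2 * k1) ^ 2 := by
      rw [mul_pow, Real.sq_sqrt (by norm_num)]; rw [hα] at h0; linarith
    exact (sq_eq_sq₀ ha (by positivity)).1 e8
  · have e8 : b ^ 2 = (Real.sqrt 2 * k2) ^ 2 := by
      rw [mul_pow, Real.sq_sqrt (by norm_num)]; rw [hγ] at h5; linarith
    exact (sq_eq_sq₀ hb (by positivity)).1 e8

/-- polarised determinant -/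
noncomputable def pol (A B : A2) : ℂ := A 0 0 * B 1 1 + A 1 1 * B 0 0 - A 0 1 * B 1 0 - A 1 0 * B 0 1

/-- Hilbert-Schmidt inner product -/
noncomputable def ip (A B : A2) : ℂ := ∑ i, ∑ j, star (A i j) * B i j

lemma det_add_smul (A B : A2) (w : ℂ) :
    (A + w • B).det = A.det + pol A B * w + B.det * w ^ 2 := by
  simp only [Matrix.det_fin_two, pol, Matrix.add_apply, Matrix.smul_apply, smul_eq_mul]
  ring

lemma hs_add_smul (A B : A2) (w : ℂ) :
    hs (A + w • B) = hs A + hs B * Complex.normSq w + 2 * (w * ip A B).re := by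
  unfold hs ip
  simp only [Fin.sum_univ_two, Matrix.add_apply, Matrix.smul_apply, smul_eq_mul,
    ← Complex.normSq_eq_norm_sq, Complex.normSq_apply, Complex.add_re, Complex.add_im,
    Complex.mul_re, Complex.mul_im, RCLike.star_def, Complex.conj_re, Complex.conj_im]
  ring

lemma hs_nonneg (A : A2) : 0 ≤ hs A := by unfold hs; positivity

lemma ip_cs (A B : A2) : Complex.normSq (ip A B) ≤ hs A * hs B := by
  have h1 : Complex.normSq (ip A B) = ‖ip A B‖ ^ 2 := Complex.normSq_eq_norm_sq _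
  rw [h1]
  have h2 : ‖ip A B‖ ≤ ∑ p : Fin 2 × Fin 2, ‖A p.1 p.2‖ * ‖B p.1 p.2‖ := by
    unfold ip
    rw [← Finset.sum_product']
    refine (norm_sum_le _ _).trans (le_of_eq ?_)
    apply Finset.sum_congr rfl; intro p _
    rw [norm_mul, norm_star]
  have h3 := Finset.sum_mul_sq_le_sq_mul_sq (Finset.univ : Finset (Fin 2 × Fin 2))
    (fun p => ‖A p.1 p.2‖) (fun p => ‖B p.1 p.2‖)
  have h4 : ∀ X : A2, hs X = ∑ p : Fin 2 × Fin 2, ‖X p.1 p.2‖ ^ 2 := by
    intro X; unfold hs; rw [← Finset.sum_product']; rfl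
  rw [h4, h4]
  exact (pow_le_pow_left₀ (norm_nonneg _) h2 2).trans h3

lemma pol_cs (A B : A2) : ‖pol A B‖ ^ 2 ≤ hs A * hs B := by
  have h1 : pol A B = ip (!![star (A 1 1), -star (A 1 0); -star (A 0 1), star (A 0 0)]) B := by
    unfold pol ip
    simp [Fin.sum_univ_two]
    ring
  have h2 : hs (!![star (A 1 1), -star (A 1 0); -star (A 0 1), star (A 0 0)] : A2) = hs A := by
    unfold hs
    simp [Fin.sum_univ_two]
    ring
  rw [h1, ← Complex.normSq_eq_norm_sq, ← h2]
  exact ip_cs _ _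

lemma plane {A B : A2} {k1 k2 : ℝ} (hk1 : 0 < k1) (hk2 : 0 < k2)
    (h : ∀ w : ℂ, (1 / 2) * (hs (A + w • B) ^ 2 - 2 * ‖(A + w • B).det‖ ^ 2)
      = (k1 + k2 * ‖w‖ ^ 2) ^ 2) :
    ip A B = 0 ∧ A.det = 0 ∧ pol A B = 0 ∧ B.det = 0 ∧ hs A = Real.sqrt 2 * k1 ∧
      hs B = Real.sqrt 2 * k2 := by
  apply plane_abstract (hs_nonneg A) (hs_nonneg B) hk1 hk2 (ip_cs A B)
  intro w
  have h1 := h w
  rw [hs_add_smul, det_add_smul, ← Complex.normSq_eq_norm_sq, ← Complex.normSq_eq_norm_sq] at h1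
  linarith

end Pool.Agent.Lib_helper48.JB
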