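import Mathlib

set_option autoImplicit false

/-!
JBW star algebras, normal faithful states and the complex interpolation spaces
`L^p(M, φ) = (M, M_*)_{1/p}`.
-/

namespace Pool.Agent.Lib_helper48.JB

open Filter Topology

/-- A JBW star algebra structure on a complex Banach space `M`: a commutative bilinear product `mul`
with the Jordan identity, a conjugate linear multiplicative involution `star`, the norm axioms of
a JB star algebra, a unit `one`, and a predual: a closed subspace `predual` of the dual space of `M`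
such that `M` is, through evaluation, isometrically the whole dual space of `predual`. -/
structure JBWStarAlgebra (M : Type) [NormedAddCommGroup M] [NormedSpace ℂ M] [CompleteSpace M] where
  /-- the Jordan product -/
  mul : M →ₗ[ℂ] M →ₗ[ℂ] M
  /-- the involution -/
  star : M → M
  /-- the unit -/
  one : M
  /-- the predual, as a subspace of the dual space -/
  predual : Submodule ℂ (StrongDual ℂ M)
  mul_comm : ∀ x y, mul x y = mul y x
  jordan : ∀ x y, mul x (mul (mul x x) y) = mul (mul x x) (mul x y)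
  star_add : ∀ x y, star (x + y) = star x + star y
  star_smul : ∀ (c : ℂ) (x : M), star (c • x) = (starRingEnd ℂ c) • star x
  star_star : ∀ x, star (star x) = x
  star_mul : ∀ x y, star (mul x y) = mul (star x) (star y)
  norm_mul_le : ∀ x y, ‖mul x y‖ ≤ ‖x‖ * ‖y‖
  norm_star : ∀ x, ‖star x‖ = ‖x‖
  norm_triple : ∀ x,
    ‖mul (mul x (star x)) x + mul (mul (star x) x) x - mul (mul x x) (star x)‖ = ‖x‖ ^ 3
  one_mul : ∀ x, mul one x = x
  predual_closed : IsClosed (predual : Set (StrongDual ℂ M))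
  predual_norm : ∀ x : M, IsLUB {r : ℝ | ∃ f ∈ predual, ‖f‖ ≤ 1 ∧ r = ‖f x‖} ‖x‖
  predual_surj : ∀ F : StrongDual ℂ predual, ∃ x : M, ∀ f : predual, F f = (f : StrongDual ℂ M) x

variable {M : Type} [NormedAddCommGroup M] [NormedSpace ℂ M] [CompleteSpace M]

namespace JBWStarAlgebra

variable (J : JBWStarAlgebra M)

/-- The positive elements: the squares of the self-adjoint elements. -/
def IsPositive (a : M) : Prop := ∃ h : M, J.star h = h ∧ a = J.mul h h

/-- Normal faithful states: functionals in the predual, with value `1` at the unit,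
real and strictly positive at the nonzero positive elements. -/
structure IsNormalFaithfulState (φ : StrongDual ℂ M) : Prop where
  normal : φ ∈ J.predual
  unital : φ J.one = 1
  pos : ∀ a, J.IsPositive a → a ≠ 0 → 0 < (φ a).re ∧ (φ a).im = 0

/-- The embedding `x ↦ φ_x`, `φ_x(y) = φ(x ∘ y)`, of `M` in its dual space. -/
noncomputable def shift (φ : StrongDual ℂ M) (x : M) : StrongDual ℂ M :=
  LinearMap.mkContinuous ((φ : M →ₗ[ℂ] ℂ).comp (J.mul x)) (‖φ‖ * ‖x‖) (by
    intro y
    calc ‖φ (J.mul x y)‖ ≤ ‖φ‖ * ‖J.mul x y‖ := φ.le_opNorm _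
      _ ≤ ‖φ‖ * (‖x‖ * ‖y‖) := mul_le_mul_of_nonneg_left (J.norm_mul_le x y) (norm_nonneg _)
      _ = ‖φ‖ * ‖x‖ * ‖y‖ := by ring)

/-- Calderon's space of analytic functions for the couple `(M, M_*)`, where `M` is embedded in `M_*`
by `x ↦ φ_x`: the function `f` with values in the predual is bounded and continuous on the closed
strip `0 ≤ Re z ≤ 1` and analytic in its interior, on `Re z = 0` it is a continuous
function with values in `M` which tends to zero at infinity and has norm at most `C`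
in `M`, on `Re z = 1` it tends to zero at infinity and has norm at most `C` in the predual. -/
structure Admissible (φ : StrongDual ℂ M) (f : ℂ → StrongDual ℂ M) (C : ℝ) : Prop where
  mem : ∀ z : ℂ, 0 ≤ z.re → z.re ≤ 1 → f z ∈ J.predual
  cont : ContinuousOn f {z : ℂ | 0 ≤ z.re ∧ z.re ≤ 1}
  bdd : ∃ B : ℝ, ∀ z : ℂ, 0 ≤ z.re → z.re ≤ 1 → ‖f z‖ ≤ B
  holo : DifferentiableOn ℂ f {z : ℂ | 0 < z.re ∧ z.re < 1}
  left : ∃ u : ℝ → M, Continuous u ∧ Tendsto u (cocompact ℝ) (𝓝 0) ∧ (∀ t, ‖u t‖ ≤ C) ∧
    ∀ t : ℝ, f (t * Complex.I) = J.shift φ (u t)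
  right : Tendsto (fun t : ℝ => f (1 + t * Complex.I)) (cocompact ℝ) (𝓝 0) ∧
    ∀ t : ℝ, ‖f (1 + t * Complex.I)‖ ≤ C

lemma shift_apply (φ : StrongDual ℂ M) (x y : M) : J.shift φ x y = φ (J.mul x y) := rfl

lemma shift_add (φ : StrongDual ℂ M) (x y : M) :
    J.shift φ (x + y) = J.shift φ x + J.shift φ y := by
  ext z; simp [shift_apply]

lemma shift_smul (φ : StrongDual ℂ M) (c : ℂ) (x : M) :
    J.shift φ (c • x) = c • J.shift φ x := by
  ext z; simp [shift_apply]

lemma Admissible.zero (φ : StrongDual ℂ M) : J.Admissible φ (fun _ => 0) 0 where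
  mem _ _ _ := J.predual.zero_mem
  cont := continuousOn_const
  bdd := ⟨0, by simp⟩
  holo := differentiableOn_const _
  left := ⟨fun _ => 0, continuous_const, tendsto_const_nhds, by simp, by
    intro t; ext y; simp [shift_apply]⟩
  right := ⟨tendsto_const_nhds, by simp⟩

variable {J}

lemma Admissible.add {φ : StrongDual ℂ M} {f g : ℂ → StrongDual ℂ M} {C D : ℝ}
    (hf : J.Admissible φ f C) (hg : J.Admissible φ g D) :
    J.Admissible φ (fun z => f z + g z) (C + D) where
  mem z h0 h1 := J.predual.add_mem (hf.mem z h0 h1) (hg.mem z h0 h1)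
  cont := hf.cont.add hg.cont
  bdd := by
    obtain ⟨B, hB⟩ := hf.bdd
    obtain ⟨B', hB'⟩ := hg.bdd
    exact ⟨B + B', fun z h0 h1 => (norm_add_le _ _).trans (add_le_add (hB z h0 h1) (hB' z h0 h1))⟩
  holo := hf.holo.add hg.holo
  left := by
    obtain ⟨u, hu, hu0, huC, hfu⟩ := hf.left
    obtain ⟨v, hv, hv0, hvC, hgv⟩ := hg.left
    refine ⟨fun t => u t + v t, hu.add hv, by simpa using hu0.add hv0,
      fun t => (norm_add_le _ _).trans (add_le_add (huC t) (hvC t)), fun t => ?_⟩
    rw [hfu, hgv, shift_add]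
  right := by
    obtain ⟨h1, h2⟩ := hf.right
    obtain ⟨h3, h4⟩ := hg.right
    exact ⟨by simpa using h1.add h3, fun t => (norm_add_le _ _).trans (add_le_add (h2 t) (h4 t))⟩

lemma Admissible.smul {φ : StrongDual ℂ M} {f : ℂ → StrongDual ℂ M} {C : ℝ} (c : ℂ)
    (hf : J.Admissible φ f C) : J.Admissible φ (fun z => c • f z) (‖c‖ * C) where
  mem z h0 h1 := J.predual.smul_mem c (hf.mem z h0 h1)
  cont := hf.cont.const_smul c
  bdd := by
    obtain ⟨B, hB⟩ := hf.bdd
    exact ⟨‖c‖ * B, fun z h0 h1 => by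
      rw [norm_smul]; exact mul_le_mul_of_nonneg_left (hB z h0 h1) (norm_nonneg _)⟩
  holo := hf.holo.const_smul c
  left := by
    obtain ⟨u, hu, hu0, huC, hfu⟩ := hf.left
    refine ⟨fun t => c • u t, hu.const_smul c, by simpa using hu0.const_smul c,
      fun t => by rw [norm_smul]; exact mul_le_mul_of_nonneg_left (huC t) (norm_nonneg _),
      fun t => ?_⟩
    rw [hfu, shift_smul]
  right := by
    obtain ⟨h1, h2⟩ := hf.right
    refine ⟨?_, fun t => by rw [norm_smul]; exact mul_le_mul_of_nonneg_left (h2 t) (norm_nonneg _)⟩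
    have h3 := h1.const_smul c
    have h4 : c • (0 : StrongDual ℂ M) = 0 := by ext y; simp
    rwa [h4] at h3

variable (J)

/-- The complex interpolation space `(M, M_*)_θ`, as a subspace of the dual space of `M`. -/
def interpolation (φ : StrongDual ℂ M) (θ : ℝ) : Submodule ℂ (StrongDual ℂ M) where
  carrier := {ξ | ∃ (f : ℂ → StrongDual ℂ M) (C : ℝ), J.Admissible φ f C ∧ f θ = ξ}
  add_mem' := by
    rintro ξ η ⟨f, C, hf, rfl⟩ ⟨g, D, hg, rfl⟩
    exact ⟨_, _, hf.add hg, rfl⟩
  zero_mem' := ⟨_, _, Admissible.zero J φ, rfl⟩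
  smul_mem' := by
    rintro c ξ ⟨f, C, hf, rfl⟩
    exact ⟨_, _, hf.smul c, rfl⟩

/-- The norm of the complex interpolation space `(M, M_*)_θ`. -/
noncomputable def interpolationNorm (φ : StrongDual ℂ M) (θ : ℝ) (ξ : StrongDual ℂ M) : ℝ :=
  sInf {C : ℝ | ∃ f : ℂ → StrongDual ℂ M, J.Admissible φ f C ∧ f θ = ξ}

/-- The spaces `L^p(M, φ)` and `L^p(M, ψ)` are isometrically isomorphic: there is a linear
bijection between the interpolation spaces with parameter `1/p` that preserves their norms. -/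
def LpIsometric (p : ℝ) (φ ψ : StrongDual ℂ M) : Prop :=
  ∃ T : J.interpolation φ (1 / p) ≃ₗ[ℂ] J.interpolation ψ (1 / p),
    ∀ ξ, J.interpolationNorm ψ (1 / p) (T ξ) = J.interpolationNorm φ (1 / p) ξ

end JBWStarAlgebra

end Pool.Agent.Lib_helper48.JB
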