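import Pool.Agent.Lib_helper48.JB.Structure

set_option autoImplicit false

/-!
The spaces `L^4` of two by two matrices for a non tracial diagonal state and for the trace are not
isometrically isomorphic.
-/

namespace Pool.Agent.Lib_helper48.JB

open Filter Topology
open scoped Matrix.Norms.L2Operator

lemma fourth_row {d : Fin 2 → ℝ} (hd : ∀ i, 0 < d i) (i : Fin 2) (w : ℂ) :
    NN d (1 / 4) (rowM i ![1, w]) ^ 4
      = (Real.sqrt (wt d i 0) + Real.sqrt (wt d i 1) * ‖w‖ ^ 2) ^ 2 := by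
  have h1 : ∀ l, (wt d i l ^ (1 / 4 : ℝ)) ^ 2 = Real.sqrt (wt d i l) := by
    intro l
    rw [← Real.rpow_mul_natCast (wt_pos hd i l).le, Real.sqrt_eq_rpow]
    congr 1
    norm_num
  rw [NN_rowM hd (by norm_num) (by norm_num)]
  have h2 : ∀ Q : ℝ, 0 ≤ Q → Real.sqrt Q ^ 4 = Q ^ 2 := by
    intro Q hQ
    calc Real.sqrt Q ^ 4 = (Real.sqrt Q ^ 2) ^ 2 := by ring
      _ = Q ^ 2 := by rw [Real.sq_sqrt hQ]
  rw [h2 _ (by positivity)]
  congr 1
  simp only [Fin.sum_univ_two, mul_pow, h1, Matrix.cons_val_zero, Matrix.cons_val_one, norm_one,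
    one_pow, mul_one]

lemma fourth_col {d : Fin 2 → ℝ} (hd : ∀ i, 0 < d i) (i : Fin 2) (w : ℂ) :
    NN d (1 / 4) (colM i ![1, w]) ^ 4
      = (Real.sqrt (wt d i 0) + Real.sqrt (wt d i 1) * ‖w‖ ^ 2) ^ 2 := by
  rw [← fourth_row hd i w, NN_rowM hd (by norm_num) (by norm_num),
    NN_colM hd (by norm_num) (by norm_num)]

/-- the matrix units -/
abbrev mu (i j : Fin 2) : A2 := Matrix.single i j (1 : ℂ)

lemma row_eq (i : Fin 2) (w : ℂ) : rowM i ![1, w] = mu i 0 + w • mu i 1 := by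
  ext k l
  rw [rowM_apply]
  fin_cases i <;> fin_cases k <;> fin_cases l <;> simp [mu]

lemma col_eq (i : Fin 2) (w : ℂ) : colM i ![1, w] = mu 0 i + w • mu 1 i := by
  ext k l
  rw [colM_apply]
  fin_cases i <;> fin_cases k <;> fin_cases l <;> simp [mu]

lemma ineq_final {a b : ℝ} (ha : 0 < a) (hb : 0 < b) (hab : a ≠ b) (h1 : a ^ 2 + b ^ 2 = 1) {H E : ℝ}
    (hH : H = 1 + (a + b) / Real.sqrt 2) (hE0 : 0 ≤ E)
    (hE : E ≤ 1 / 2 + Real.sqrt (a * b) / Real.sqrt 2)
    (hle : (1 / 2) * (H ^ 2 - 2 * E ^ 2) ≤ 1) : False := by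
  set q := Real.sqrt 2 with hq
  have hq2 : q ^ 2 = 2 := Real.sq_sqrt (by norm_num)
  have hq0 : 0 < q := Real.sqrt_pos.2 (by norm_num)
  set w := Real.sqrt (a * b) with hw
  have hw2 : w ^ 2 = a * b := Real.sq_sqrt (by positivity)
  have hw0 : 0 < w := Real.sqrt_pos.2 (by positivity)
  -- w ^ 2 < 1 / 2
  have hlt : w ^ 2 < 1 / 2 := by
    rw [hw2]
    have : 0 < (a - b) ^ 2 := by
      have : a - b ≠ 0 := sub_ne_zero.2 hab
      positivity
    nlinarith
  set S := a + b with hS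
  have hS2 : S ^ 2 = 1 + 2 * w ^ 2 := by rw [hS, hw2]; nlinarith
  have hS0 : 0 < S := by positivity
  have hE2 : E ^ 2 ≤ (1 / 2 + w / q) ^ 2 := pow_le_pow_left₀ hE0 hE 2
  -- 1 / q = q / 2
  have e1 : ∀ x : ℝ, x / q = x * q / 2 := by
    intro x
    rw [div_eq_div_iff hq0.ne' (by norm_num)]
    rw [mul_assoc, ← sq, hq2]
  rw [e1] at hE2 hH
  have h3 : q * (S - w) ≤ 1 := by
    rw [hH] at hle
    nlinarith
  -- but S > w + q / 2
  have h4 : w + q / 2 < S := by
    apply lt_of_pow_lt_pow_left₀ 2 hS0.le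
    rw [hS2]
    have h5 : w - q / 2 ≠ 0 := by
      intro h
      have : w = q / 2 := by linarith
      rw [this] at hlt
      nlinarith
    have h6 : 0 < (w - q / 2) ^ 2 := by positivity
    nlinarith
  nlinarith

/-- no linear injection carries the `L^4` norm of a non tracial diagonal state into the
tracial `L^4` norm -/
theorem no_isometry {d : Fin 2 → ℝ} (hd : ∀ i, 0 < d i) (hsum : d 0 + d 1 = 1) (hne : d 0 ≠ d 1)
    (S : A2 →ₗ[ℂ] A2) (hinj : ∀ x, S x = 0 → x = 0)
    (hS : ∀ x, NN dt (1 / 4) (S x) = NN d (1 / 4) x) : False := by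
  have hw00 : wt d 0 0 = d 0 := by unfold wt; ring
  have hw01 : wt d 0 1 = 1 / 2 := by unfold wt; rw [hsum]
  have hw10 : wt d 1 0 = 1 / 2 := by unfold wt; rw [add_comm, hsum]
  have hw11 : wt d 1 1 = d 1 := by unfold wt; ring
  have ha : 0 < Real.sqrt (d 0) := Real.sqrt_pos.2 (hd 0)
  have hb : 0 < Real.sqrt (d 1) := Real.sqrt_pos.2 (hd 1)
  have hh : 0 < Real.sqrt (1 / 2 : ℝ) := Real.sqrt_pos.2 (by norm_num)
  have hrow : ∀ (i : Fin 2) (w : ℂ), (1 / 2) * (hs (S (mu i 0) + w • S (mu i 1)) ^ 2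
      - 2 * ‖(S (mu i 0) + w • S (mu i 1)).det‖ ^ 2)
      = (Real.sqrt (wt d i 0) + Real.sqrt (wt d i 1) * ‖w‖ ^ 2) ^ 2 := by
    intro i w
    rw [← fourth_row hd, row_eq, ← hS, map_add, map_smul, NN_dt]
  have hcol : ∀ (i : Fin 2) (w : ℂ), (1 / 2) * (hs (S (mu 0 i) + w • S (mu 1 i)) ^ 2
      - 2 * ‖(S (mu 0 i) + w • S (mu 1 i)).det‖ ^ 2)
      = (Real.sqrt (wt d i 0) + Real.sqrt (wt d i 1) * ‖w‖ ^ 2) ^ 2 := by
    intro i w
    rw [← fourth_col hd, col_eq, ← hS, map_add, map_smul, NN_dt]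
  have hr0 := hrow 0
  have hr1 := hrow 1
  have hc0 := hcol 0
  have hc1 := hcol 1
  rw [hw00, hw01] at hr0 hc0
  rw [hw10, hw11] at hr1 hc1
  obtain ⟨iAB, dA, pAB, dB, hA, hB⟩ := plane ha hh hr0
  obtain ⟨iAC, -, pAC, dC, -, hC⟩ := plane ha hh hc0
  obtain ⟨iCD, -, pCD, dD, -, hD⟩ := plane hh hb hr1
  obtain ⟨iBD, -, pBD, -, -, -⟩ := plane hh hb hc1
  set A := S (mu 0 0) with hAdef
  set B := S (mu 0 1) with hBdef
  set C := S (mu 1 0) with hCdef
  set D := S (mu 1 1) with hDdef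
  have indep : ∀ (i j k l : Fin 2), (i, j) ≠ (k, l) → Indep (S (mu i j)) (S (mu k l)) := by
    intro i j k l hijkl a b hab
    have h0 : S (a • mu i j + b • mu k l) = 0 := by
      rw [map_add, map_smul, map_smul]; exact hab
    have h1 := hinj _ h0
    constructor
    · have h2 := congrFun (congrFun h1 i) j
      have h3 : ¬ (k = i ∧ l = j) := by
        rintro ⟨rfl, rfl⟩; exact hijkl rfl
      simpa [mu, Matrix.single_apply, h3] using h2
    · have h2 := congrFun (congrFun h1 k) l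
      have h3 : ¬ (i = k ∧ j = l) := by
        rintro ⟨rfl, rfl⟩; exact hijkl rfl
      simpa [mu, Matrix.single_apply, h3] using h2
  have hAne : A ≠ 0 := by
    intro h
    have h1 := hinj _ h
    have h2 := congrFun (congrFun h1 0) 0
    simp [mu] at h2
  obtain ⟨iAD, iBC⟩ := structure1 hAne dA ⟨iAB, pAB⟩ ⟨iAC, pAC⟩ dB dC dD pBD pCD
    (indep 0 1 1 0 (by decide)) (indep 0 0 1 1 (by decide))
  -- the unitary
  set q := Real.sqrt 2 with hq
  have hq2 : q ^ 2 = 2 := Real.sq_sqrt (by norm_num)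
  have hq0 : 0 < q := Real.sqrt_pos.2 (by norm_num)
  set r : ℝ := 1 / q with hr
  have hr0 : 0 < r := by positivity
  have hr2 : r ^ 2 = 1 / 2 := by rw [hr, div_pow, hq2, one_pow]
  have hrc : ((r : ℝ) : ℂ) ^ 2 = 1 / 2 := by rw [← Complex.ofReal_pow, hr2]; norm_num
  set u : A2 := (r : ℂ) • (mu 0 0 + mu 0 1 - mu 1 0 + mu 1 1) with hu
  have huu : star u * u = 1 := by
    have hconj : (starRingEnd ℂ) (r : ℂ) = (r : ℂ) := Complex.conj_ofReal r
    ext i j
    rw [Matrix.mul_apply]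
    simp only [Fin.sum_univ_two, Matrix.star_apply, hu]
    fin_cases i <;> fin_cases j <;>
      simp [mu] <;> linear_combination (2 : ℂ) * hrc
  have hunorm : ‖u‖ ≤ 1 := by
    have h2 : ‖u‖ * ‖u‖ = ‖(1 : A2)‖ := by rw [← CStarRing.norm_star_mul_self, huu]
    have h3 : ‖(1 : A2)‖ ≤ 1 := by
      have := norm_diag_le (fun _ => (1 : ℂ)) zero_le_one (fun _ => by simp)
      rwa [Matrix.diagonal_one] at this
    nlinarith [norm_nonneg u]
  have hle := NN_le_one hd hsum (θ := 1 / 4) (by norm_num) (by norm_num) hunorm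
  have hSu : S u = (r : ℂ) • (A + B - C + D) := by
    rw [hu, map_smul, map_add, map_sub, map_add]
  have hN4 : NN dt (1 / 4) (S u) ^ 4 ≤ 1 := by
    rw [hS u]
    exact pow_le_one₀ (NN_nonneg hd _ _) hle
  rw [NN_dt, hSu] at hN4
  -- compute hs and det
  have hsX : hs ((r : ℂ) • (A + B - C + D)) = (1 / 2) * (hs A + hs B + hs C + hs D) := by
    have hre : ∀ X Y : A2, ip X Y = 0 → (ip X Y).re = 0 := fun X Y h => by rw [h]; rfl
    have h1 := hre _ _ iAB
    have h2 := hre _ _ iAC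
    have h3 := hre _ _ iAD
    have h4 := hre _ _ iBC
    have h5 := hre _ _ iBD
    have h6 := hre _ _ iCD
    have hexp : hs ((r : ℂ) • (A + B - C + D)) = r ^ 2 * (hs A + hs B + hs C + hs D
        + 2 * ((ip A B).re - (ip A C).re + (ip A D).re - (ip B C).re + (ip B D).re
          - (ip C D).re)) := by
      unfold hs ip
      simp only [Fin.sum_univ_two, Matrix.add_apply, Matrix.sub_apply, Matrix.smul_apply,
        smul_eq_mul, ← Complex.normSq_eq_norm_sq, Complex.normSq_apply, Complex.add_re,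
        Complex.add_im, Complex.sub_re, Complex.sub_im, Complex.mul_re, Complex.mul_im,
        RCLike.star_def, Complex.conj_re, Complex.conj_im, Complex.ofReal_re, Complex.ofReal_im]
      ring
    rw [hexp, h1, h2, h3, h4, h5, h6, hr2]
    ring
  have hdX : ((r : ℂ) • (A + B - C + D)).det = (1 / 2) * (pol A D - pol B C) := by
    have hexp : ((r : ℂ) • (A + B - C + D)).det = (r : ℂ) ^ 2 * (A.det + B.det + C.det + D.det
        + pol A B - pol A C + pol A D - pol B C + pol B D - pol C D) := by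
      simp only [Matrix.det_fin_two, pol, Matrix.add_apply, Matrix.sub_apply, Matrix.smul_apply,
        smul_eq_mul]
      ring
    rw [hexp, dA, dB, dC, dD, pAB, pAC, pBD, pCD, hrc]
    ring
  have hsh : Real.sqrt 2 * Real.sqrt (1 / 2 : ℝ) = 1 := by
    rw [← Real.sqrt_mul (by norm_num)]; norm_num
  have hB' : hs B = 1 := by rw [hB, hsh]
  have hC' : hs C = 1 := by rw [hC, hsh]
  have hsum' : Real.sqrt (d 0) ^ 2 + Real.sqrt (d 1) ^ 2 = 1 := by
    rw [Real.sq_sqrt (hd 0).le, Real.sq_sqrt (hd 1).le, hsum]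
  have hab : Real.sqrt (d 0) ≠ Real.sqrt (d 1) := by
    intro h
    apply hne
    rw [← Real.sq_sqrt (hd 0).le, ← Real.sq_sqrt (hd 1).le, h]
  set a := Real.sqrt (d 0) with hadef
  set b := Real.sqrt (d 1) with hbdef
  refine ineq_final (E := ‖((r : ℂ) • (A + B - C + D)).det‖)
    (H := hs ((r : ℂ) • (A + B - C + D))) ha hb hab hsum' ?_ (norm_nonneg _) ?_ hN4
  · rw [hsX, hA, hB', hC', hD, ← hq, add_div]
    have e1 : ∀ x : ℝ, x / q = x * q / 2 := by
      intro x
      rw [div_eq_div_iff hq0.ne' (by norm_num), mul_assoc, ← sq, hq2]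
    rw [e1, e1]
    ring
  · rw [hdX, norm_mul]
    have e2 : ‖(1 / 2 : ℂ)‖ = 1 / 2 := by norm_num
    rw [e2]
    have e3 : ‖pol A D‖ ≤ Real.sqrt 2 * Real.sqrt (a * b) := by
      have h1 := pol_cs A D
      rw [hA, hD] at h1
      have h2 : ‖pol A D‖ ≤ Real.sqrt (Real.sqrt 2 * a * (Real.sqrt 2 * b)) :=
        Real.le_sqrt_of_sq_le h1
      refine h2.trans (le_of_eq ?_)
      rw [show Real.sqrt 2 * a * (Real.sqrt 2 * b) = (Real.sqrt 2) ^ 2 * (a * b) by ring,
        Real.sqrt_mul (by positivity), Real.sqrt_sq (Real.sqrt_nonneg _)]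
    have e4 : ‖pol B C‖ ≤ 1 := by
      have h1 := pol_cs B C
      rw [hB', hC', one_mul] at h1
      have h0 := norm_nonneg (pol B C)
      nlinarith
    have e5 : ‖pol A D - pol B C‖ ≤ Real.sqrt 2 * Real.sqrt (a * b) + 1 :=
      (norm_sub_le _ _).trans (add_le_add e3 e4)
    have e1 : ∀ x : ℝ, x / q = x * q / 2 := by
      intro x
      rw [div_eq_div_iff hq0.ne' (by norm_num), mul_assoc, ← sq, hq2]
    rw [e1, hq]
    nlinarith

/-- the spaces are not isometric -/
theorem not_isometric {d : Fin 2 → ℝ} (hd : ∀ i, 0 < d i) (hsum : d 0 + d 1 = 1)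
    (hne : d 0 ≠ d 1) : ¬ J2.LpIsometric 4 (st d) (st dt) := by
  rintro ⟨T, hT⟩
  have hmem : ∀ x : A2, J2.shift (st d) x ∈ J2.interpolation (st d) (1 / 4) :=
    fun x => mem_interp hd _
  set S : A2 →ₗ[ℂ] A2 :=
    { toFun := fun x => inv dt (T ⟨J2.shift (st d) x, hmem x⟩ : StrongDual ℂ A2)
      map_add' := by
        intro x y
        have h1 : (⟨J2.shift (st d) (x + y), hmem (x + y)⟩ : J2.interpolation (st d) (1 / 4))
            = ⟨J2.shift (st d) x, hmem x⟩ + ⟨J2.shift (st d) y, hmem y⟩ := by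
          apply Subtype.ext
          exact JBWStarAlgebra.shift_add J2 (st d) x y
        rw [h1, map_add, Submodule.coe_add, map_add]
      map_smul' := by
        intro c x
        have h1 : (⟨J2.shift (st d) (c • x), hmem (c • x)⟩ : J2.interpolation (st d) (1 / 4))
            = c • ⟨J2.shift (st d) x, hmem x⟩ := by
          apply Subtype.ext
          exact JBWStarAlgebra.shift_smul J2 (st d) c x
        rw [h1, map_smul, Submodule.coe_smul, map_smul]
        rfl } with hSdef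
  have hSapp : ∀ x, S x = inv dt (T ⟨J2.shift (st d) x, hmem x⟩ : StrongDual ℂ A2) := fun x => rfl
  have hshift : ∀ x, J2.shift (st dt) (S x) = (T ⟨J2.shift (st d) x, hmem x⟩ : StrongDual ℂ A2) := by
    intro x
    rw [hSapp, shift_inv dt_pos]
  apply no_isometry hd hsum hne S
  · intro x hx
    have h1 := hshift x
    rw [hx] at h1
    have h2 : J2.shift (st dt) (0 : A2) = 0 := by
      ext y; simp [JBWStarAlgebra.shift_apply]
    rw [h2] at h1
    have h3 : T ⟨J2.shift (st d) x, hmem x⟩ = 0 := Subtype.ext h1.symm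
    have h4 : (⟨J2.shift (st d) x, hmem x⟩ : J2.interpolation (st d) (1 / 4)) = 0 := by
      rwa [LinearEquiv.map_eq_zero_iff] at h3
    have h5 : J2.shift (st d) x = 0 := congrArg Subtype.val h4
    rw [← inv_shift hd x, h5, map_zero]
  · intro x
    show J2.interpolationNorm (st dt) (1 / 4) (J2.shift (st dt) (S x))
      = J2.interpolationNorm (st d) (1 / 4) (J2.shift (st d) x)
    rw [hshift]
    exact hT ⟨J2.shift (st d) x, hmem x⟩

/-- diagonal states are normal faithful states -/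
theorem st_state {d : Fin 2 → ℝ} (hd : ∀ i, 0 < d i) (hsum : d 0 + d 1 = 1) :
    J2.IsNormalFaithfulState (st d) where
  normal := Submodule.mem_top
  unital := by
    show st d (1 : A2) = 1
    rw [st_apply, Fin.sum_univ_two]
    simp only [Matrix.one_apply_eq, mul_one]
    rw [← Complex.ofReal_add, hsum, Complex.ofReal_one]
  pos := by
    rintro a ⟨h, hh, rfl⟩ hne
    have hh' : star h = h := hh
    have hmul : J2.mul h h = h * h := by
      show jmul h h = h * h
      rw [jmul_apply, ← two_smul ℂ (h * h), smul_smul]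
      norm_num
    rw [hmul] at hne ⊢
    have hval : st d (h * h) = ((∑ i, d i * ∑ k, ‖h k i‖ ^ 2 : ℝ) : ℂ) := by
      have hik : ∀ i k : Fin 2, h i k = star (h k i) := by
        intro i k
        have h1 := congrFun (congrFun hh' i) k
        rw [Matrix.star_apply] at h1
        exact h1.symm
      rw [st_apply]
      push_cast
      apply Finset.sum_congr rfl; intro i _
      congr 1
      rw [Matrix.mul_apply]
      apply Finset.sum_congr rfl; intro k _
      rw [hik i k, RCLike.star_def, Complex.conj_mul']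
    rw [hval]
    refine ⟨?_, Complex.ofReal_im _⟩
    rw [Complex.ofReal_re]
    by_contra hcon
    have hnn : ∀ i ∈ Finset.univ, 0 ≤ d i * ∑ k, ‖h k i‖ ^ 2 := fun i _ =>
      mul_nonneg (hd i).le (by positivity)
    have h0 : ∑ i, d i * ∑ k, ‖h k i‖ ^ 2 = 0 :=
      le_antisymm (not_lt.1 hcon) (Finset.sum_nonneg hnn)
    have h1 := (Finset.sum_eq_zero_iff_of_nonneg hnn).1 h0
    apply hne
    have h2 : h = 0 := by
      ext k i
      have h3 := h1 i (Finset.mem_univ i)
      have h4 : ∑ k, ‖h k i‖ ^ 2 = 0 := (mul_eq_zero.1 h3).resolve_left (hd i).ne'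
      have h5 := (Finset.sum_eq_zero_iff_of_nonneg (fun k _ => by positivity)).1 h4 k
        (Finset.mem_univ k)
      simpa using h5
    rw [h2, mul_zero]

end Pool.Agent.Lib_helper48.JB
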