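import Pool.Agent.Lib_helper48.JB.Mat

set_option autoImplicit false

/-!
States on two by two matrices, upper bounds and duality for the interpolation norms.
-/

namespace Pool.Agent.Lib_helper48.JB

open Filter Topology
open scoped Matrix.Norms.L2Operator

/-- diagonal states -/
noncomputable def st (d : Fin 2 → ℝ) : StrongDual ℂ A2 := ∑ i, ((d i : ℝ) : ℂ) • ent i i

lemma st_apply (d : Fin 2 → ℝ) (y : A2) : st d y = ∑ i, ((d i : ℝ) : ℂ) * y i i := by
  simp [st, Fin.sum_univ_two, ent_apply]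

/-- weights -/
noncomputable def wt (d : Fin 2 → ℝ) (i j : Fin 2) : ℝ := (d i + d j) / 2

lemma shift_st (d : Fin 2 → ℝ) (x y : A2) :
    J2.shift (st d) x y = ∑ i, ∑ j, ((wt d i j : ℝ) : ℂ) * x i j * y j i := by
  rw [JBWStarAlgebra.shift_apply]
  show st d (jmul x y) = _
  rw [st_apply, jmul_apply]
  simp only [Fin.sum_univ_two, Matrix.smul_apply, Matrix.add_apply, Matrix.mul_apply, smul_eq_mul, wt]
  push_cast
  ring

lemma wt_pos {d : Fin 2 → ℝ} (hd : ∀ i, 0 < d i) (i j : Fin 2) : 0 < wt d i j := by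
  unfold wt; have := hd i; have := hd j; linarith

/-- inverse of the embedding -/
noncomputable def inv (d : Fin 2 → ℝ) : StrongDual ℂ A2 →ₗ[ℂ] A2 where
  toFun ξ := Matrix.of (fun i j => (((wt d i j)⁻¹ : ℝ) : ℂ) * ξ (Matrix.single j i 1))
  map_add' ξ η := by ext i j; simp [mul_add]
  map_smul' c ξ := by ext i j; simp; ring

lemma inv_apply (d : Fin 2 → ℝ) (ξ : StrongDual ℂ A2) (i j : Fin 2) :
    inv d ξ i j = (((wt d i j)⁻¹ : ℝ) : ℂ) * ξ (Matrix.single j i 1) := rfl

lemma shift_inv {d : Fin 2 → ℝ} (hd : ∀ i, 0 < d i) (ξ : StrongDual ℂ A2) :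
    J2.shift (st d) (inv d ξ) = ξ := by
  ext y
  rw [shift_st, dual_apply ξ y, Finset.sum_comm]
  apply Finset.sum_congr rfl; intro j _
  apply Finset.sum_congr rfl; intro i _
  rw [inv_apply]
  have h : ((wt d i j : ℝ) : ℂ) * (((wt d i j)⁻¹ : ℝ) : ℂ) = 1 := by
    rw [← Complex.ofReal_mul, mul_inv_cancel₀ (wt_pos hd i j).ne']; simp
  rw [← mul_assoc, h, one_mul, mul_comm]

lemma inv_shift {d : Fin 2 → ℝ} (hd : ∀ i, 0 < d i) (x : A2) :
    inv d (J2.shift (st d) x) = x := by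
  ext i j
  rw [inv_apply, shift_st]
  have h : ((wt d i j : ℝ) : ℂ) * (((wt d i j)⁻¹ : ℝ) : ℂ) = 1 := by
    rw [← Complex.ofReal_mul, mul_inv_cancel₀ (wt_pos hd i j).ne']; simp
  have h2 : ∑ k, ∑ l, ((wt d k l : ℝ) : ℂ) * x k l * (Matrix.single j i (1 : ℂ)) l k
      = ((wt d i j : ℝ) : ℂ) * x i j := by
    rw [Finset.sum_eq_single i, Finset.sum_eq_single j]
    · simp
    · intro l _ hl; simp [hl.symm]
    · simp
    · intro k _ hk
      apply Finset.sum_eq_zero; intro l _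
      simp [hk.symm]
    · simp
  rw [h2, ← mul_assoc, mul_comm (((wt d i j)⁻¹ : ℝ) : ℂ), h, one_mul]

/-- the interpolation norm on matrices -/
noncomputable def NN (d : Fin 2 → ℝ) (θ : ℝ) (x : A2) : ℝ :=
  J2.interpolationNorm (st d) θ (J2.shift (st d) x)

lemma adm_nonneg {φ : StrongDual ℂ A2} {f : ℂ → StrongDual ℂ A2} {C : ℝ}
    (h : J2.Admissible φ f C) : 0 ≤ C := (norm_nonneg _).trans (h.right.2 0)

lemma norm_le_of_adm {φ : StrongDual ℂ A2} {f : ℂ → StrongDual ℂ A2} {C θ : ℝ}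
    {ξ : StrongDual ℂ A2} (h : J2.Admissible φ f C) (hθ : f θ = ξ) :
    J2.interpolationNorm φ θ ξ ≤ C :=
  csInf_le ⟨0, by rintro C' ⟨g, hg, -⟩; exact adm_nonneg hg⟩ ⟨f, h, hθ⟩

/-- the embedding as a continuous linear map -/
noncomputable def sh (d : Fin 2 → ℝ) : A2 →L[ℂ] StrongDual ℂ A2 :=
  LinearMap.toContinuousLinearMap
    { toFun := J2.shift (st d)
      map_add' := JBWStarAlgebra.shift_add J2 (st d)
      map_smul' := JBWStarAlgebra.shift_smul J2 (st d) }

lemma sh_apply (d : Fin 2 → ℝ) (x : A2) : sh d x = J2.shift (st d) x := rfl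

/-- the gaussian factor -/
noncomputable def gf (δ θ : ℝ) (z : ℂ) : ℂ := Complex.exp (δ * (z ^ 2 - θ ^ 2))

lemma norm_gf (δ θ : ℝ) (x t : ℝ) :
    ‖gf δ θ (x + t * Complex.I)‖ = Real.exp (δ * (x ^ 2 - t ^ 2 - θ ^ 2)) := by
  unfold gf
  rw [Complex.norm_exp]
  congr 1
  have : (δ : ℂ) * (((x : ℂ) + t * Complex.I) ^ 2 - (θ : ℂ) ^ 2)
      = ((δ * (x ^ 2 - t ^ 2 - θ ^ 2) : ℝ) : ℂ) + ((δ * (2 * x * t) : ℝ) : ℂ) * Complex.I := by
    push_cast
    linear_combination (δ : ℂ) * (t : ℂ) ^ 2 * Complex.I_sq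
  rw [this, Complex.add_re, Complex.ofReal_re, Complex.re_ofReal_mul, Complex.I_re]
  ring

lemma gf_self (δ θ : ℝ) : gf δ θ θ = 1 := by simp [gf]

lemma gf_diff (δ θ : ℝ) : Differentiable ℂ (gf δ θ) := by unfold gf; fun_prop

lemma tendsto_gf {δ θ : ℝ} (hδ : 0 < δ) (x : ℝ) :
    Tendsto (fun t : ℝ => ‖gf δ θ (x + t * Complex.I)‖) (cocompact ℝ) (𝓝 0) := by
  simp_rw [norm_gf]
  apply Real.tendsto_exp_atBot.comp
  have h1 : Tendsto (fun t : ℝ => t ^ 2) (cocompact ℝ) atTop := by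
    have := (tendsto_norm_cocompact_atTop (E := ℝ)).comp (tendsto_id (α := ℝ) (x := cocompact ℝ))
    have h2 := (tendsto_pow_atTop (α := ℝ) (n := 2) (by norm_num)).comp this
    refine h2.congr (fun t => ?_)
    simp
  have h3 : Tendsto (fun t : ℝ => -(δ * t ^ 2)) (cocompact ℝ) atBot :=
    tendsto_neg_atTop_atBot.comp (h1.const_mul_atTop hδ)
  have h4 := tendsto_atBot_add_const_right (cocompact ℝ) (δ * (x ^ 2 - θ ^ 2)) h3
  refine h4.congr (fun t => ?_)
  ring

/-- upper bound by an explicit analytic family -/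
lemma NN_le {d : Fin 2 → ℝ} {θ : ℝ} (h0 : 0 < θ) (h1 : θ < 1) {g : ℂ → A2} {C B : ℝ}
    (hg : Differentiable ℂ g) (hB : ∀ z : ℂ, 0 ≤ z.re → z.re ≤ 1 → ‖g z‖ ≤ B)
    (hl : ∀ t : ℝ, ‖g (t * Complex.I)‖ ≤ C)
    (hr : ∀ t : ℝ, ‖J2.shift (st d) (g (1 + t * Complex.I))‖ ≤ C) : NN d θ (g θ) ≤ C := by
  have hC : 0 ≤ C := (norm_nonneg _).trans (hl 0)
  have key : ∀ δ : ℝ, 0 < δ → NN d θ (g θ) ≤ Real.exp δ * C := by
    intro δ hδ
    have hexp : 1 ≤ Real.exp δ := Real.one_le_exp hδ.le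
    have e0 : ∀ t : ℝ, ((t : ℂ) * Complex.I) = ((0 : ℝ) : ℂ) + t * Complex.I := by intro t; simp
    have e1 : ∀ t : ℝ, (1 + (t : ℂ) * Complex.I) = ((1 : ℝ) : ℂ) + t * Complex.I := by intro t; simp
    have hb0 : ∀ t : ℝ, ‖gf δ θ (t * Complex.I)‖ ≤ 1 := by
      intro t
      rw [e0, norm_gf, Real.exp_le_one_iff]
      nlinarith [sq_nonneg t, sq_nonneg θ]
    have hb1 : ∀ t : ℝ, ‖gf δ θ (1 + t * Complex.I)‖ ≤ Real.exp δ := by
      intro t
      rw [e1, norm_gf, Real.exp_le_exp]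
      nlinarith [sq_nonneg t, sq_nonneg θ]
    have hbz : ∀ z : ℂ, 0 ≤ z.re → z.re ≤ 1 → ‖gf δ θ z‖ ≤ Real.exp δ := by
      intro z hz0 hz1
      have hz : z = ((z.re : ℝ) : ℂ) + (z.im : ℝ) * Complex.I := (Complex.re_add_im z).symm
      rw [hz, norm_gf, Real.exp_le_exp]
      have : z.re ^ 2 ≤ 1 := by nlinarith
      nlinarith [sq_nonneg z.im, sq_nonneg θ]
    have hgl : ∀ t : ℝ, ‖gf δ θ (t * Complex.I) • g (t * Complex.I)‖
        ≤ ‖gf δ θ (t * Complex.I)‖ * C := by
      intro t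
      rw [norm_smul]
      exact mul_le_mul_of_nonneg_left (hl t) (norm_nonneg _)
    have hgr : ∀ t : ℝ, ‖gf δ θ (1 + t * Complex.I) • J2.shift (st d) (g (1 + t * Complex.I))‖
        ≤ ‖gf δ θ (1 + t * Complex.I)‖ * C := by
      intro t
      rw [norm_smul]
      exact mul_le_mul_of_nonneg_left (hr t) (norm_nonneg _)
    have hadm : J2.Admissible (st d) (fun z => sh d (gf δ θ z • g z)) (Real.exp δ * C) :=
      { mem := fun z _ _ => Submodule.mem_top
        cont := by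
          apply Continuous.continuousOn
          exact (sh d).continuous.comp ((gf_diff δ θ).continuous.smul hg.continuous)
        bdd := by
          refine ⟨‖sh d‖ * (Real.exp δ * B), fun z hz0 hz1 => ?_⟩
          refine ((sh d).le_opNorm _).trans (mul_le_mul_of_nonneg_left ?_ (norm_nonneg _))
          rw [norm_smul]
          exact mul_le_mul (hbz z hz0 hz1) (hB z hz0 hz1) (norm_nonneg _) (Real.exp_pos _).le
        holo := by
          apply Differentiable.differentiableOn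
          exact (sh d).differentiable.comp ((gf_diff δ θ).smul hg)
        left := by
          refine ⟨fun t => gf δ θ (t * Complex.I) • g (t * Complex.I), ?_, ?_, ?_, ?_⟩
          · have h1 := (gf_diff δ θ).continuous
            have h2 := hg.continuous
            fun_prop
          · rw [tendsto_zero_iff_norm_tendsto_zero]
            have h3 := (tendsto_gf (θ := θ) hδ 0).mul_const C
            rw [zero_mul] at h3
            refine squeeze_zero (fun t => norm_nonneg _) (fun t => ?_) h3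
            refine (hgl t).trans (le_of_eq ?_)
            rw [← e0 t]
          · intro t
            refine (hgl t).trans ?_
            calc ‖gf δ θ (t * Complex.I)‖ * C ≤ 1 * C := mul_le_mul_of_nonneg_right (hb0 t) hC
              _ ≤ Real.exp δ * C := mul_le_mul_of_nonneg_right hexp hC
          · intro t; rfl
        right := by
          refine ⟨?_, ?_⟩
          · rw [tendsto_zero_iff_norm_tendsto_zero]
            have h3 := (tendsto_gf (θ := θ) hδ 1).mul_const C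
            rw [zero_mul] at h3
            refine squeeze_zero (fun t => norm_nonneg _) (fun t => ?_) h3
            rw [map_smul, sh_apply]
            refine (hgr t).trans (le_of_eq ?_)
            rw [← e1 t]
          · intro t
            rw [map_smul, sh_apply]
            exact (hgr t).trans (mul_le_mul_of_nonneg_right (hb1 t) hC) }
    apply norm_le_of_adm hadm
    simp only [gf_self, one_smul]
    rfl
  have hlim : Tendsto (fun δ : ℝ => Real.exp δ * C) (𝓝[>] 0) (𝓝 (Real.exp 0 * C)) :=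
    ((Real.continuous_exp.tendsto 0).mul_const C).mono_left nhdsWithin_le_nhds
  rw [Real.exp_zero, one_mul] at hlim
  apply ge_of_tendsto hlim
  filter_upwards [self_mem_nhdsWithin] with δ hδ
  exact key δ hδ

/-- interpolation space is everything -/
lemma mem_interp {d : Fin 2 → ℝ} (hd : ∀ i, 0 < d i) {θ : ℝ} (ξ : StrongDual ℂ A2) :
    ∃ (f : ℂ → StrongDual ℂ A2) (C : ℝ), J2.Admissible (st d) f C ∧ f θ = ξ := by
  have e0 : ∀ t : ℝ, ((t : ℂ) * Complex.I) = ((0 : ℝ) : ℂ) + t * Complex.I := by intro t; simp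
  have e1 : ∀ t : ℝ, (1 + (t : ℂ) * Complex.I) = ((1 : ℝ) : ℂ) + t * Complex.I := by intro t; simp
  have hbz : ∀ z : ℂ, 0 ≤ z.re → z.re ≤ 1 → ‖gf 1 θ z‖ ≤ Real.exp 1 := by
    intro z hz0 hz1
    have hz : z = ((z.re : ℝ) : ℂ) + (z.im : ℝ) * Complex.I := (Complex.re_add_im z).symm
    rw [hz, norm_gf, Real.exp_le_exp]
    have : z.re ^ 2 ≤ 1 := by nlinarith
    nlinarith [sq_nonneg z.im, sq_nonneg θ]
  set x := inv d ξ with hx
  have hbz0 : ∀ t : ℝ, ‖gf 1 θ (t * Complex.I)‖ ≤ Real.exp 1 := fun t => hbz _ (by simp) (by simp)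
  have hbz1 : ∀ t : ℝ, ‖gf 1 θ (1 + t * Complex.I)‖ ≤ Real.exp 1 := fun t => hbz _ (by simp) (by simp)
  refine ⟨fun z => gf 1 θ z • ξ, Real.exp 1 * (‖x‖ + ‖ξ‖), ?_, by simp [gf_self]⟩
  exact
    { mem := fun z _ _ => Submodule.mem_top
      cont := ((gf_diff 1 θ).continuous.smul continuous_const).continuousOn
      bdd := ⟨Real.exp 1 * ‖ξ‖, fun z hz0 hz1 => by
        rw [norm_smul]; exact mul_le_mul_of_nonneg_right (hbz z hz0 hz1) (norm_nonneg _)⟩
      holo := ((gf_diff 1 θ).smul (differentiable_const _)).differentiableOn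
      left := by
        refine ⟨fun t => gf 1 θ (t * Complex.I) • x, ?_, ?_, ?_, ?_⟩
        · have h1 := (gf_diff 1 θ).continuous
          fun_prop
        · rw [tendsto_zero_iff_norm_tendsto_zero]
          have h3 := (tendsto_gf (θ := θ) (show (0 : ℝ) < 1 by norm_num) 0).mul_const ‖x‖
          rw [zero_mul] at h3
          refine squeeze_zero (fun t => norm_nonneg _) (fun t => ?_) h3
          rw [norm_smul, ← e0 t]
        · intro t
          rw [norm_smul]
          refine mul_le_mul (hbz0 t) ?_ (norm_nonneg _) (Real.exp_pos _).le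
          linarith [norm_nonneg ξ]
        · intro t
          rw [JBWStarAlgebra.shift_smul, shift_inv hd]
      right := by
        refine ⟨?_, ?_⟩
        · rw [tendsto_zero_iff_norm_tendsto_zero]
          have h3 := (tendsto_gf (θ := θ) (show (0 : ℝ) < 1 by norm_num) 1).mul_const ‖ξ‖
          rw [zero_mul] at h3
          refine squeeze_zero (fun t => norm_nonneg _) (fun t => ?_) h3
          rw [norm_smul, ← e1 t]
        · intro t
          rw [norm_smul]
          refine mul_le_mul (hbz1 t) ?_ (norm_nonneg _) (Real.exp_pos _).le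
          linarith [norm_nonneg x] }

lemma inv_cont (d : Fin 2 → ℝ) : Continuous (inv d) :=
  LinearMap.continuous_of_finiteDimensional _

/-- duality -/
lemma duality_adm {d : Fin 2 → ℝ} (hd : ∀ i, 0 < d i) {θ : ℝ} (h0 : 0 < θ) (h1 : θ < 1) {x y : A2}
    {f g : ℂ → StrongDual ℂ A2} {C C' : ℝ} (hf : J2.Admissible (st d) f C)
    (hg : J2.Admissible (st d) g C') (hfx : f θ = J2.shift (st d) x)
    (hgy : g ((1 - θ : ℝ) : ℂ) = J2.shift (st d) y) :
    ‖J2.shift (st d) x y‖ ≤ C * C' := by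
  have hsymm : ∀ u v : A2, J2.shift (st d) u v = J2.shift (st d) v u := by
    intro u v
    rw [JBWStarAlgebra.shift_apply, JBWStarAlgebra.shift_apply, J2.mul_comm]
  set F : ℂ → ℂ := fun z => f z (inv d (g (1 - z))) with hF
  have hC : 0 ≤ C := adm_nonneg hf
  have hC' : 0 ≤ C' := adm_nonneg hg
  have hmaps : ∀ z : ℂ, 0 ≤ z.re → z.re ≤ 1 → 0 ≤ (1 - z).re ∧ (1 - z).re ≤ 1 := by
    intro z hz0 hz1
    rw [Complex.sub_re, Complex.one_re]
    constructor <;> linarith
  have hcont : ContinuousOn F {z : ℂ | 0 ≤ z.re ∧ z.re ≤ 1} := by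
    have h2 : ContinuousOn (fun z : ℂ => g (1 - z)) {z : ℂ | 0 ≤ z.re ∧ z.re ≤ 1} := by
      refine hg.cont.comp (by fun_prop) ?_
      intro z hz
      exact hmaps z hz.1 hz.2
    exact hf.cont.clm_apply ((inv_cont d).comp_continuousOn h2)
  have hdiff : DifferentiableOn ℂ F {z : ℂ | 0 < z.re ∧ z.re < 1} := by
    have h2 : DifferentiableOn ℂ (fun z : ℂ => g (1 - z)) {z : ℂ | 0 < z.re ∧ z.re < 1} := by
      refine hg.holo.comp (by fun_prop) ?_
      intro z hz
      simp only [Set.mem_ofPred_eq, Complex.sub_re, Complex.one_re] at hz ⊢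
      constructor <;> linarith [hz.1, hz.2]
    have h3 : DifferentiableOn ℂ (fun z : ℂ => inv d (g (1 - z))) {z : ℂ | 0 < z.re ∧ z.re < 1} :=
      (LinearMap.toContinuousLinearMap (inv d)).differentiable.comp_differentiableOn h2
    exact hf.holo.clm_apply h3
  have hbdd : ∃ B, ∀ z : ℂ, 0 ≤ z.re → z.re ≤ 1 → ‖F z‖ ≤ B := by
    obtain ⟨B, hB⟩ := hf.bdd
    obtain ⟨B', hB'⟩ := hg.bdd
    have hBn : 0 ≤ B := (norm_nonneg _).trans (hB 0 (by simp) (by simp))
    refine ⟨B * (‖LinearMap.toContinuousLinearMap (inv d)‖ * B'), fun z hz0 hz1 => ?_⟩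
    refine ((f z).le_opNorm _).trans ?_
    apply mul_le_mul (hB z hz0 hz1) _ (norm_nonneg _) hBn
    refine ((LinearMap.toContinuousLinearMap (inv d)).le_opNorm _).trans ?_
    exact mul_le_mul_of_nonneg_left (hB' _ (hmaps z hz0 hz1).1 (hmaps z hz0 hz1).2) (norm_nonneg _)
  have hstrip : Complex.HadamardThreeLines.verticalStrip 0 1 = {z : ℂ | 0 < z.re ∧ z.re < 1} := by
    ext z; rfl
  have hcstrip : Complex.HadamardThreeLines.verticalClosedStrip 0 1
      = {z : ℂ | 0 ≤ z.re ∧ z.re ≤ 1} := by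
    ext z; rfl
  have hcl : closure (Complex.HadamardThreeLines.verticalStrip 0 1)
      = {z : ℂ | 0 ≤ z.re ∧ z.re ≤ 1} := by
    rw [← hcstrip, Complex.HadamardThreeLines.verticalStrip,
      Complex.HadamardThreeLines.verticalClosedStrip, ← closure_Ioo zero_ne_one,
      ← Complex.closure_preimage_re]
  have hDC : DiffContOnCl ℂ F (Complex.HadamardThreeLines.verticalStrip 0 1) := by
    refine ⟨by rw [hstrip]; exact hdiff, by rw [hcl]; exact hcont⟩
  have hBA : BddAbove ((norm ∘ F) '' Complex.HadamardThreeLines.verticalClosedStrip 0 1) := by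
    obtain ⟨B, hB⟩ := hbdd
    refine ⟨B, ?_⟩
    rintro _ ⟨z, hz, rfl⟩
    exact hB z hz.1 hz.2
  have ha : ∀ z ∈ Complex.re ⁻¹' {0}, ‖F z‖ ≤ C * C' := by
    intro z hz
    have hz0 : z.re = 0 := hz
    have hz' : z = (z.im : ℂ) * Complex.I := by
      apply Complex.ext <;> simp [hz0]
    obtain ⟨u, -, -, huC, hfu⟩ := hf.left
    obtain ⟨-, hr⟩ := hg.right
    have h1z : 1 - z = 1 + ((-z.im : ℝ) : ℂ) * Complex.I := by
      rw [hz']; simp; ring
    have h2 : F z = g (1 - z) (u z.im) := by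
      simp only [hF]
      conv_lhs => rw [hz', hfu, hsymm, ← hz', shift_inv hd]
    rw [h2]
    refine ((g (1 - z)).le_opNorm _).trans ?_
    rw [h1z, mul_comm]
    exact mul_le_mul (huC _) (hr _) (norm_nonneg _) hC
  have hb : ∀ z ∈ Complex.re ⁻¹' {1}, ‖F z‖ ≤ C * C' := by
    intro z hz
    have hz0 : z.re = 1 := hz
    have hz' : z = 1 + (z.im : ℂ) * Complex.I := by
      apply Complex.ext <;> simp [hz0]
    obtain ⟨u, -, -, huC, hgu⟩ := hg.left
    obtain ⟨-, hr⟩ := hf.right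
    have h1z : 1 - z = ((-z.im : ℝ) : ℂ) * Complex.I := by
      conv_lhs => rw [hz']
      simp
    have h2 : F z = f z (u (-z.im)) := by
      simp only [hF]
      rw [h1z, hgu, inv_shift hd]
    rw [h2]
    refine ((f z).le_opNorm _).trans ?_
    conv_lhs => rw [hz']
    exact mul_le_mul (hr _) (huC _) (norm_nonneg _) hC
  have hmem : (θ : ℂ) ∈ Complex.HadamardThreeLines.verticalClosedStrip 0 1 := by
    rw [hcstrip]; exact ⟨by simpa using h0.le, by simpa using h1.le⟩
  have key := Complex.HadamardThreeLines.norm_le_interp_of_mem_verticalClosedStrip₀₁' F hmem hDC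
    hBA ha hb
  have hθ : F θ = J2.shift (st d) x y := by
    simp only [hF]
    have e2 : (1 : ℂ) - (θ : ℂ) = ((1 - θ : ℝ) : ℂ) := by push_cast; rfl
    rw [e2, hgy, inv_shift hd, hfx]
  rw [hθ] at key
  refine key.trans (le_of_eq ?_)
  have hCC : 0 ≤ C * C' := mul_nonneg hC hC'
  rcases hCC.eq_or_lt with h | h
  · rw [← h]
    simp only [Complex.ofReal_re]
    rw [Real.zero_rpow h0.ne', mul_zero]
  · rw [← Real.rpow_add h]
    simp

lemma duality {d : Fin 2 → ℝ} (hd : ∀ i, 0 < d i) {θ : ℝ} (h0 : 0 < θ) (h1 : θ < 1) (x y : A2) :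
    ‖J2.shift (st d) x y‖ ≤ NN d θ x * NN d (1 - θ) y := by
  have hne : ∀ (θ : ℝ) (ξ : StrongDual ℂ A2),
      {C : ℝ | ∃ f : ℂ → StrongDual ℂ A2, J2.Admissible (st d) f C ∧ f θ = ξ}.Nonempty := by
    intro θ ξ
    obtain ⟨f, C, hf, hfx⟩ := mem_interp hd (θ := θ) ξ
    exact ⟨C, f, hf, hfx⟩
  have hnn : ∀ (θ : ℝ) (z : A2), 0 ≤ NN d θ z := by
    intro θ z
    apply le_csInf (hne θ _)
    rintro C ⟨f, hf, -⟩
    exact adm_nonneg hf
  apply le_of_forall_pos_le_add
  intro ε hε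
  set a := NN d θ x
  set b := NN d (1 - θ) y
  have ha : 0 ≤ a := hnn _ _
  have hb : 0 ≤ b := hnn _ _
  set δ : ℝ := min 1 (ε / (a + b + 1)) with hδ
  have hδ0 : 0 < δ := lt_min one_pos (by positivity)
  obtain ⟨C, ⟨f, hf, hfx⟩, hC⟩ := Real.lt_sInf_add_pos (hne θ (J2.shift (st d) x)) hδ0
  obtain ⟨C', ⟨g, hg, hgy⟩, hC'⟩ := Real.lt_sInf_add_pos (hne (1 - θ) (J2.shift (st d) y)) hδ0
  have hC1 : C < a + δ := hC
  have hC1' : C' < b + δ := hC'
  have h2 := duality_adm hd h0 h1 hf hg hfx hgy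
  have hC0 : 0 ≤ C := adm_nonneg hf
  have hC0' : 0 ≤ C' := adm_nonneg hg
  have h3 : C * C' ≤ (a + δ) * (b + δ) := mul_le_mul hC1.le hC1'.le hC0' (by linarith)
  have h4 : δ ≤ 1 := min_le_left _ _
  have h5 : δ * (a + b + 1) ≤ ε := by
    have := min_le_right (1 : ℝ) (ε / (a + b + 1))
    rw [← hδ, le_div_iff₀ (by positivity)] at this
    exact this
  nlinarith

end Pool.Agent.Lib_helper48.JB
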