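import Pool.Agent.Lib_helper48.JB.Defs

set_option autoImplicit false

/-!
The JBW star algebra of two by two complex matrices.
-/

namespace Pool.Agent.Lib_helper48.JB

open Filter Topology
open scoped Matrix.Norms.L2Operator

/-- two by two complex matrices -/
abbrev A2 : Type := Matrix (Fin 2) (Fin 2) ℂ

/-- the Jordan product of matrices -/
noncomputable def jmul : A2 →ₗ[ℂ] A2 →ₗ[ℂ] A2 :=
  LinearMap.mk₂ ℂ (fun x y => (1 / 2 : ℂ) • (x * y + y * x))
    (by intro x y z; rw [add_mul, mul_add, ← smul_add]; congr 1; abel)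
    (by intro c x y; rw [smul_mul_assoc, mul_smul_comm, ← smul_add, smul_comm])
    (by intro x y z; rw [add_mul, mul_add, ← smul_add]; congr 1; abel)
    (by intro c x y; rw [smul_mul_assoc, mul_smul_comm, ← smul_add, smul_comm])

lemma jmul_apply (x y : A2) : jmul x y = (1 / 2 : ℂ) • (x * y + y * x) := rfl

lemma triple_eq (x : A2) :
    jmul (jmul x (star x)) x + jmul (jmul (star x) x) x - jmul (jmul x x) (star x)
      = x * star x * x := by
  simp only [jmul_apply, smul_mul_assoc, mul_smul_comm, mul_add, add_mul, ← smul_add, smul_smul,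
    ← smul_sub]
  have h : x * star x * x + star x * x * x + (x * (x * star x) + x * (star x * x))
      + (star x * x * x + x * star x * x + (x * (star x * x) + x * (x * star x)))
      - (x * x * star x + x * x * star x + (star x * (x * x) + star x * (x * x)))
      = (4 : ℂ) • (x * star x * x) := by
    have e1 : (4 : ℂ) • (x * star x * x) = x * star x * x + x * star x * x + x * star x * x
        + x * star x * x := by
      rw [show (4 : ℂ) = 1 + 1 + 1 + 1 by norm_num]
      simp only [add_smul, one_smul]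
    rw [e1]
    simp only [mul_assoc]
    abel
  rw [h, smul_smul]
  norm_num

lemma norm_cube (x : A2) : ‖x * star x * x‖ = ‖x‖ ^ 3 := by
  set a := star x * x with ha
  have hsa : star a = a := by rw [ha, star_mul, star_star]
  have h1 : ‖x * star x * x‖ * ‖x * star x * x‖ = ‖a * a * a‖ := by
    rw [← CStarRing.norm_star_mul_self]
    congr 1
    rw [ha]
    simp only [star_mul, star_star, mul_assoc]
  have h2 : ‖a‖ = ‖x‖ * ‖x‖ := CStarRing.norm_star_mul_self
  have h3 : ‖a * a‖ = ‖a‖ * ‖a‖ := by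
    have := CStarRing.norm_star_mul_self (x := a)
    rwa [hsa] at this
  have h4 : ‖(a * a) * (a * a)‖ = ‖a * a‖ * ‖a * a‖ := by
    have := CStarRing.norm_star_mul_self (x := a * a)
    rwa [star_mul, hsa] at this
  have h5 : ‖(a * a) * (a * a)‖ ≤ ‖a * a * a‖ * ‖a‖ := by
    rw [show (a * a) * (a * a) = (a * a * a) * a by simp only [mul_assoc]]
    exact norm_mul_le _ _
  have h6 : ‖a * a * a‖ ≤ ‖a‖ ^ 3 := by
    calc ‖a * a * a‖ ≤ ‖a * a‖ * ‖a‖ := norm_mul_le _ _
      _ = ‖a‖ ^ 3 := by rw [h3]; ring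
  have h7 : ‖a * a * a‖ = ‖a‖ ^ 3 := by
    apply le_antisymm h6
    rcases (norm_nonneg a).eq_or_lt with h0 | hpos
    · rw [← h0]; simp
    · rw [h4, h3] at h5
      have : ‖a‖ ^ 3 * ‖a‖ ≤ ‖a * a * a‖ * ‖a‖ := by
        calc ‖a‖ ^ 3 * ‖a‖ = ‖a‖ * ‖a‖ * (‖a‖ * ‖a‖) := by ring
          _ ≤ _ := h5
      exact le_of_mul_le_mul_right this hpos
  rw [h7, h2] at h1
  have h8 : ‖x * star x * x‖ ^ 2 = (‖x‖ ^ 3) ^ 2 := by
    rw [sq, h1]; ring
  exact (sq_eq_sq₀ (norm_nonneg _) (by positivity)).1 h8

/-- entry functionals -/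
noncomputable def ent (i j : Fin 2) : StrongDual ℂ A2 :=
  LinearMap.toContinuousLinearMap (Matrix.entryLinearMap ℂ ℂ i j)

lemma ent_apply (i j : Fin 2) (y : A2) : ent i j y = y i j := rfl

lemma dual_apply (f : StrongDual ℂ A2) (y : A2) :
    f y = ∑ i, ∑ j, y i j * f (Matrix.single i j 1) := by
  conv_lhs => rw [Matrix.matrix_eq_sum_single y]
  rw [map_sum]
  apply Finset.sum_congr rfl; intro i _
  rw [map_sum]
  apply Finset.sum_congr rfl; intro j _
  rw [show Matrix.single i j (y i j) = y i j • Matrix.single i j (1 : ℂ) by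
    rw [Matrix.smul_single]; simp]
  rw [map_smul]; rfl

lemma dual_eq_sum (f : StrongDual ℂ A2) :
    f = ∑ i, ∑ j, f (Matrix.single i j 1) • ent i j := by
  ext y
  rw [dual_apply f y]
  simp only [Fin.sum_univ_two, add_apply, smul_apply, ent_apply, smul_eq_mul]
  ring

/-- the JBW star algebra of two by two matrices -/
noncomputable def J2 : JBWStarAlgebra A2 where
  mul := jmul
  star := star
  one := 1
  predual := ⊤
  mul_comm x y := by rw [jmul_apply, jmul_apply, add_comm]
  jordan x y := by
    simp only [jmul_apply, smul_mul_assoc, mul_smul_comm, mul_add, add_mul, ← smul_add, smul_smul]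
    congr 1
    simp only [mul_assoc]
    abel
  star_add := star_add
  star_smul c x := by rw [star_smul]; rfl
  star_star := star_star
  star_mul x y := by
    rw [jmul_apply, jmul_apply, star_smul, star_add, star_mul, star_mul, add_comm]
    congr 1
    simp
  norm_mul_le x y := by
    rw [jmul_apply, norm_smul]
    have h1 : ‖(1 / 2 : ℂ)‖ = 1 / 2 := by norm_num
    have h2 : ‖x * y + y * x‖ ≤ ‖x‖ * ‖y‖ + ‖y‖ * ‖x‖ :=
      (norm_add_le _ _).trans (add_le_add (norm_mul_le _ _) (norm_mul_le _ _))
    rw [h1]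
    nlinarith [norm_nonneg x, norm_nonneg y]
  norm_star x := norm_star x
  norm_triple x := by rw [triple_eq, norm_cube]
  one_mul x := by
    rw [jmul_apply, one_mul, mul_one, ← two_smul ℂ x, smul_smul]
    norm_num
  predual_closed := by simp
  predual_norm x := by
    constructor
    · rintro r ⟨f, -, hf, rfl⟩
      calc ‖f x‖ ≤ ‖f‖ * ‖x‖ := f.le_opNorm x
        _ ≤ 1 * ‖x‖ := mul_le_mul_of_nonneg_right hf (norm_nonneg _)
        _ = ‖x‖ := one_mul _
    · intro b hb
      rcases eq_or_ne ‖x‖ 0 with hx | hx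
      · have := hb ⟨0, by simp, by simp, rfl⟩
        rw [hx]
        simpa using this
      · obtain ⟨g, hg, hgx⟩ := exists_dual_vector ℂ x hx
        apply hb
        refine ⟨g, by simp, hg.le, ?_⟩
        rw [hgx]; simp
  predual_surj F := by
    refine ⟨Matrix.of (fun i j => F ⟨ent i j, Submodule.mem_top⟩), fun f => ?_⟩
    have h1 : f = ∑ i, ∑ j, (f : StrongDual ℂ A2) (Matrix.single i j 1) •
        (⟨ent i j, Submodule.mem_top⟩ : (⊤ : Submodule ℂ (StrongDual ℂ A2))) := by
      apply Subtype.ext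
      conv_lhs => rw [dual_eq_sum (f : StrongDual ℂ A2)]
      simp [Fin.sum_univ_two]
    rw [dual_apply (f : StrongDual ℂ A2)]
    conv_lhs => rw [h1]
    simp only [map_sum, map_smul, smul_eq_mul, Matrix.of_apply]
    apply Finset.sum_congr rfl; intro i _
    apply Finset.sum_congr rfl; intro j _
    ring

end Pool.Agent.Lib_helper48.JB
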