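import Pool.Agent.Lib_helper48.JB.Interp

set_option autoImplicit false

/-!
Interpolation norms of rows, columns and unitaries.
-/

namespace Pool.Agent.Lib_helper48.JB

open Filter Topology
open scoped Matrix.Norms.L2Operator

lemma entry_le (y : A2) (i j : Fin 2) : ‖y i j‖ ≤ ‖y‖ := by
  have h1 := Matrix.l2_opNorm_mulVec y (EuclideanSpace.single j (1 : ℂ))
  have h2 : ‖(WithLp.toLp 2 (Matrix.mulVec y (EuclideanSpace.single j (1 : ℂ)).ofLp) :
      EuclideanSpace ℂ (Fin 2)) i‖ ≤ ‖(WithLp.toLp 2 (Matrix.mulVec y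
        (EuclideanSpace.single j (1 : ℂ)).ofLp) : EuclideanSpace ℂ (Fin 2))‖ :=
    PiLp.norm_apply_le _ _
  have h3 : (WithLp.toLp 2 (Matrix.mulVec y (EuclideanSpace.single j (1 : ℂ)).ofLp) :
      EuclideanSpace ℂ (Fin 2)) i = y i j := by
    simp [Matrix.mulVec_single]
  rw [h3] at h2
  refine h2.trans (h1.trans ?_)
  simp

lemma col_sq_le (y : A2) (j : Fin 2) : ∑ i, ‖y i j‖ ^ 2 ≤ ‖y‖ ^ 2 := by
  have h1 := entry_le (star y * y) j j
  rw [CStarRing.norm_star_mul_self] at h1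
  have h2 : (star y * y) j j = ((∑ i, ‖y i j‖ ^ 2 : ℝ) : ℂ) := by
    rw [Matrix.mul_apply]
    push_cast
    apply Finset.sum_congr rfl; intro i _
    rw [Matrix.star_apply, RCLike.star_def, Complex.conj_mul']
  rw [h2, Complex.norm_real, Real.norm_eq_abs, abs_of_nonneg (by positivity)] at h1
  rw [sq]; exact h1

lemma row_sq_le (y : A2) (i : Fin 2) : ∑ j, ‖y i j‖ ^ 2 ≤ ‖y‖ ^ 2 := by
  have h1 := col_sq_le (star y) i
  rw [norm_star] at h1
  refine le_trans (le_of_eq ?_) h1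
  apply Finset.sum_congr rfl; intro j _
  rw [Matrix.star_apply, RCLike.star_def, RCLike.norm_conj]

/-- matrix with one row -/
def rowM (i : Fin 2) (r : Fin 2 → ℂ) : A2 := Matrix.of (fun k l => if k = i then r l else 0)

/-- matrix with one column -/
def colM (j : Fin 2) (c : Fin 2 → ℂ) : A2 := Matrix.of (fun k l => if l = j then c k else 0)

lemma rowM_apply (i k l : Fin 2) (r : Fin 2 → ℂ) : rowM i r k l = if k = i then r l else 0 := rfl
lemma colM_apply (j k l : Fin 2) (c : Fin 2 → ℂ) : colM j c k l = if l = j then c k else 0 := rfl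

lemma norm_diag_le (v : Fin 2 → ℂ) {c : ℝ} (hc : 0 ≤ c) (h : ∀ i, ‖v i‖ ≤ c) :
    ‖(Matrix.diagonal v : A2)‖ ≤ c := by
  rw [Matrix.l2_opNorm_diagonal]
  exact (pi_norm_le_iff_of_nonneg hc).2 h

lemma norm_rowM (i : Fin 2) (r : Fin 2 → ℂ) : ‖rowM i r‖ ≤ Real.sqrt (∑ l, ‖r l‖ ^ 2) := by
  have h1 : ‖rowM i r‖ * ‖rowM i r‖ ≤ ∑ l, ‖r l‖ ^ 2 := by
    rw [← CStarRing.norm_self_mul_star]
    have h2 : rowM i r * star (rowM i r)
        = Matrix.diagonal (fun k => if k = i then ((∑ l, ‖r l‖ ^ 2 : ℝ) : ℂ) else 0) := by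
      ext k m
      rw [Matrix.mul_apply, Matrix.diagonal_apply]
      simp only [Matrix.star_apply, rowM_apply]
      by_cases hk : k = i
      · by_cases hm : m = i
        · subst hk; subst hm
          simp only [if_true]
          push_cast
          apply Finset.sum_congr rfl; intro l _
          rw [RCLike.star_def, Complex.mul_conj']
        · simp [hk, hm, Ne.symm hm]
      · by_cases hm : k = m
        · subst hm; simp [hk]
        · simp [hk, hm]
    rw [h2]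
    apply norm_diag_le _ (by positivity)
    intro k
    split_ifs
    · rw [Complex.norm_real, Real.norm_eq_abs, abs_of_nonneg (by positivity)]
    · rw [norm_zero]; positivity
  apply Real.le_sqrt_of_sq_le
  rw [sq]; exact h1

lemma norm_colM (j : Fin 2) (c : Fin 2 → ℂ) : ‖colM j c‖ ≤ Real.sqrt (∑ l, ‖c l‖ ^ 2) := by
  have h1 : colM j c = star (rowM j (fun l => star (c l))) := by
    ext k l
    rw [Matrix.star_apply, rowM_apply, colM_apply]
    split_ifs <;> simp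
  rw [h1, norm_star]
  refine (norm_rowM _ _).trans (le_of_eq ?_)
  simp

lemma norm_shift_rowM {d : Fin 2 → ℝ} (hd : ∀ i, 0 < d i) (i : Fin 2) (r : Fin 2 → ℂ) :
    ‖J2.shift (st d) (rowM i r)‖ ≤ Real.sqrt (∑ l, (wt d i l * ‖r l‖) ^ 2) := by
  apply ContinuousLinearMap.opNorm_le_bound _ (Real.sqrt_nonneg _)
  intro y
  have h1 : J2.shift (st d) (rowM i r) y = ∑ l, ((wt d i l : ℝ) : ℂ) * r l * y l i := by
    rw [shift_st, Finset.sum_eq_single i]
    · simp [rowM_apply]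
    · intro k _ hk; simp [rowM_apply, hk]
    · simp
  rw [h1]
  have h2 : ‖∑ l, ((wt d i l : ℝ) : ℂ) * r l * y l i‖ ≤ ∑ l, (wt d i l * ‖r l‖) * ‖y l i‖ := by
    refine (norm_sum_le _ _).trans (Finset.sum_le_sum (fun l _ => ?_))
    rw [norm_mul, norm_mul, Complex.norm_real, Real.norm_eq_abs, abs_of_pos (wt_pos hd i l)]
  refine h2.trans ?_
  have h3 := Finset.sum_mul_sq_le_sq_mul_sq Finset.univ (fun l => wt d i l * ‖r l‖)
    (fun l => ‖y l i‖)
  have h4 : ∑ l, (wt d i l * ‖r l‖) * ‖y l i‖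
      ≤ Real.sqrt ((∑ l, (wt d i l * ‖r l‖) ^ 2) * ∑ l, ‖y l i‖ ^ 2) := by
    apply Real.le_sqrt_of_sq_le h3
  refine h4.trans ?_
  rw [Real.sqrt_mul (by positivity)]
  apply mul_le_mul_of_nonneg_left _ (Real.sqrt_nonneg _)
  rw [Real.sqrt_le_left (norm_nonneg _)]
  exact col_sq_le y i

lemma norm_shift_colM {d : Fin 2 → ℝ} (hd : ∀ i, 0 < d i) (j : Fin 2) (c : Fin 2 → ℂ) :
    ‖J2.shift (st d) (colM j c)‖ ≤ Real.sqrt (∑ l, (wt d j l * ‖c l‖) ^ 2) := by
  apply ContinuousLinearMap.opNorm_le_bound _ (Real.sqrt_nonneg _)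
  intro y
  have h1 : J2.shift (st d) (colM j c) y = ∑ l, ((wt d j l : ℝ) : ℂ) * c l * y j l := by
    rw [shift_st]
    apply Finset.sum_congr rfl; intro l _
    rw [Finset.sum_eq_single j]
    · simp [colM_apply, wt, add_comm]
    · intro k _ hk; simp [colM_apply, hk]
    · simp
  rw [h1]
  have h2 : ‖∑ l, ((wt d j l : ℝ) : ℂ) * c l * y j l‖ ≤ ∑ l, (wt d j l * ‖c l‖) * ‖y j l‖ := by
    refine (norm_sum_le _ _).trans (Finset.sum_le_sum (fun l _ => ?_))
    rw [norm_mul, norm_mul, Complex.norm_real, Real.norm_eq_abs, abs_of_pos (wt_pos hd j l)]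
  refine h2.trans ?_
  have h3 := Finset.sum_mul_sq_le_sq_mul_sq Finset.univ (fun l => wt d j l * ‖c l‖)
    (fun l => ‖y j l‖)
  have h4 : ∑ l, (wt d j l * ‖c l‖) * ‖y j l‖
      ≤ Real.sqrt ((∑ l, (wt d j l * ‖c l‖) ^ 2) * ∑ l, ‖y j l‖ ^ 2) := by
    apply Real.le_sqrt_of_sq_le h3
  refine h4.trans ?_
  rw [Real.sqrt_mul (by positivity)]
  apply mul_le_mul_of_nonneg_left _ (Real.sqrt_nonneg _)
  rw [Real.sqrt_le_left (norm_nonneg _)]
  exact row_sq_le y j

/-- real powers with complex exponents -/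
noncomputable def pw (w : ℝ) (z : ℂ) : ℂ := Complex.exp (z * Real.log w)

lemma pw_diff (w : ℝ) : Differentiable ℂ (pw w) := by unfold pw; fun_prop

lemma norm_pw {w : ℝ} (hw : 0 < w) (z : ℂ) : ‖pw w z‖ = w ^ z.re := by
  unfold pw
  rw [Complex.norm_exp, Complex.mul_re, Complex.ofReal_re, Complex.ofReal_im, mul_zero, sub_zero,
    Real.rpow_def_of_pos hw, mul_comm]

lemma pw_zero (w : ℝ) : pw w 0 = 1 := by simp [pw]

lemma pw_bdd {w : ℝ} (hw : 0 < w) {θ : ℝ} (z : ℂ) (h0 : 0 ≤ z.re) (h1 : z.re ≤ 1) :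
    ‖pw w (θ - z)‖ ≤ w ^ θ + w ^ (θ - 1) := by
  rw [norm_pw hw, Complex.sub_re, Complex.ofReal_re]
  rcases le_total 1 w with h | h
  · have : w ^ (θ - z.re) ≤ w ^ θ := Real.rpow_le_rpow_of_exponent_le h (by linarith)
    have h2 : 0 < w ^ (θ - 1) := Real.rpow_pos_of_pos hw _
    linarith
  · have : w ^ (θ - z.re) ≤ w ^ (θ - 1) := Real.rpow_le_rpow_of_exponent_ge hw h (by linarith)
    have h2 : 0 < w ^ θ := Real.rpow_pos_of_pos hw _
    linarith

lemma NN_rowM_le {d : Fin 2 → ℝ} (hd : ∀ i, 0 < d i) {θ : ℝ} (h0 : 0 < θ) (h1 : θ < 1)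
    (i : Fin 2) (r : Fin 2 → ℂ) :
    NN d θ (rowM i r) ≤ Real.sqrt (∑ l, (wt d i l ^ θ * ‖r l‖) ^ 2) := by
  set g : ℂ → A2 := fun z => rowM i (fun l => pw (wt d i l) (θ - z) * r l) with hg
  have hgθ : g θ = rowM i r := by
    simp only [hg, sub_self, pw_zero, one_mul]
  rw [← hgθ]
  have hgd : Differentiable ℂ g := by
    have h2 : ∀ z, g z = ∑ l, (pw (wt d i l) (θ - z) * r l) • Matrix.single i l (1 : ℂ) := by
      intro z
      ext k m
      simp only [hg, rowM_apply, Fin.sum_univ_two, Matrix.add_apply, Matrix.smul_apply,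
        Matrix.single_apply, smul_eq_mul]
      by_cases hk : k = i
      · subst hk
        fin_cases m <;> simp
      · simp [hk, Ne.symm hk]
    have h3 : g = fun z => ∑ l, (pw (wt d i l) (θ - z) * r l) • Matrix.single i l (1 : ℂ) :=
      funext h2
    rw [h3]
    apply Differentiable.fun_sum
    intro l _
    apply Differentiable.smul_const
    apply Differentiable.mul_const
    exact (pw_diff _).comp (by fun_prop)
  refine NN_le h0 h1 (B := Real.sqrt (∑ l, ((wt d i l ^ θ + wt d i l ^ (θ - 1)) * ‖r l‖) ^ 2))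
    hgd ?_ ?_ ?_
  · intro z hz0 hz1
    refine (norm_rowM _ _).trans (Real.sqrt_le_sqrt (Finset.sum_le_sum (fun l _ => ?_)))
    rw [norm_mul]
    apply pow_le_pow_left₀ (by positivity)
    exact mul_le_mul_of_nonneg_right (pw_bdd (wt_pos hd i l) z hz0 hz1) (norm_nonneg _)
  · intro t
    refine (norm_rowM _ _).trans (le_of_eq ?_)
    congr 1
    apply Finset.sum_congr rfl; intro l _
    rw [norm_mul, norm_pw (wt_pos hd i l)]
    simp
  · intro t
    refine (norm_shift_rowM hd _ _).trans (le_of_eq ?_)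
    congr 1
    apply Finset.sum_congr rfl; intro l _
    rw [norm_mul, norm_pw (wt_pos hd i l)]
    have hw := wt_pos hd i l
    have : ((θ : ℂ) - (1 + (t : ℂ) * Complex.I)).re = θ - 1 := by simp
    rw [this, Real.rpow_sub_one hw.ne']
    field_simp

lemma NN_colM_le {d : Fin 2 → ℝ} (hd : ∀ i, 0 < d i) {θ : ℝ} (h0 : 0 < θ) (h1 : θ < 1)
    (j : Fin 2) (c : Fin 2 → ℂ) :
    NN d θ (colM j c) ≤ Real.sqrt (∑ l, (wt d j l ^ θ * ‖c l‖) ^ 2) := by
  set g : ℂ → A2 := fun z => colM j (fun l => pw (wt d j l) (θ - z) * c l) with hg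
  have hgθ : g θ = colM j c := by
    simp only [hg, sub_self, pw_zero, one_mul]
  rw [← hgθ]
  have hgd : Differentiable ℂ g := by
    have h2 : ∀ z, g z = ∑ l, (pw (wt d j l) (θ - z) * c l) • Matrix.single l j (1 : ℂ) := by
      intro z
      ext m k
      simp only [hg, colM_apply, Fin.sum_univ_two, Matrix.add_apply, Matrix.smul_apply,
        Matrix.single_apply, smul_eq_mul]
      by_cases hk : k = j
      · subst hk
        fin_cases m <;> simp
      · simp [hk, Ne.symm hk]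
    have h3 : g = fun z => ∑ l, (pw (wt d j l) (θ - z) * c l) • Matrix.single l j (1 : ℂ) :=
      funext h2
    rw [h3]
    apply Differentiable.fun_sum
    intro l _
    apply Differentiable.smul_const
    apply Differentiable.mul_const
    exact (pw_diff _).comp (by fun_prop)
  refine NN_le h0 h1 (B := Real.sqrt (∑ l, ((wt d j l ^ θ + wt d j l ^ (θ - 1)) * ‖c l‖) ^ 2))
    hgd ?_ ?_ ?_
  · intro z hz0 hz1
    refine (norm_colM _ _).trans (Real.sqrt_le_sqrt (Finset.sum_le_sum (fun l _ => ?_)))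
    rw [norm_mul]
    apply pow_le_pow_left₀ (by positivity)
    exact mul_le_mul_of_nonneg_right (pw_bdd (wt_pos hd j l) z hz0 hz1) (norm_nonneg _)
  · intro t
    refine (norm_colM _ _).trans (le_of_eq ?_)
    congr 1
    apply Finset.sum_congr rfl; intro l _
    rw [norm_mul, norm_pw (wt_pos hd j l)]
    simp
  · intro t
    refine (norm_shift_colM hd _ _).trans (le_of_eq ?_)
    congr 1
    apply Finset.sum_congr rfl; intro l _
    rw [norm_mul, norm_pw (wt_pos hd j l)]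
    have hw := wt_pos hd j l
    have : ((θ : ℂ) - (1 + (t : ℂ) * Complex.I)).re = θ - 1 := by simp
    rw [this, Real.rpow_sub_one hw.ne']
    field_simp

lemma shift_row_col (d : Fin 2 → ℝ) (i : Fin 2) (r c : Fin 2 → ℂ) :
    J2.shift (st d) (rowM i r) (colM i c) = ∑ l, ((wt d i l : ℝ) : ℂ) * r l * c l := by
  rw [shift_st, Finset.sum_eq_single i]
  · simp [rowM_apply, colM_apply]
  · intro k _ hk; simp [rowM_apply, hk]
  · simp

lemma shift_symm (d : Fin 2 → ℝ) (x y : A2) :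
    J2.shift (st d) x y = J2.shift (st d) y x := by
  rw [JBWStarAlgebra.shift_apply, JBWStarAlgebra.shift_apply, J2.mul_comm]

/-- the key computation: dual choice of coefficients -/
lemma dual_coeff {d : Fin 2 → ℝ} (hd : ∀ i, 0 < d i) (θ : ℝ) (i : Fin 2) (r : Fin 2 → ℂ) :
    ∑ l, ((wt d i l : ℝ) : ℂ) * r l * (((wt d i l ^ (2 * θ - 1) : ℝ) : ℂ) * star (r l))
      = ((∑ l, (wt d i l ^ θ * ‖r l‖) ^ 2 : ℝ) : ℂ) ∧
    ∑ l, (wt d i l ^ (1 - θ) * ‖((wt d i l ^ (2 * θ - 1) : ℝ) : ℂ) * star (r l)‖) ^ 2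
      = ∑ l, (wt d i l ^ θ * ‖r l‖) ^ 2 := by
  constructor
  · rw [Complex.ofReal_sum]
    apply Finset.sum_congr rfl; intro l _
    have hw := wt_pos hd i l
    have e1 : wt d i l * wt d i l ^ (2 * θ - 1) = (wt d i l ^ θ) ^ 2 := by
      rw [← Real.rpow_mul_natCast hw.le, Real.rpow_sub_one hw.ne', mul_div_cancel₀ _ hw.ne']
      congr 1
      push_cast; ring
    have e2 : r l * star (r l) = ((‖r l‖ ^ 2 : ℝ) : ℂ) := by
      rw [RCLike.star_def, Complex.mul_conj']; push_cast; rfl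
    calc ((wt d i l : ℝ) : ℂ) * r l * (((wt d i l ^ (2 * θ - 1) : ℝ) : ℂ) * star (r l))
        = ((wt d i l * wt d i l ^ (2 * θ - 1) : ℝ) : ℂ) * (r l * star (r l)) := by
          push_cast; ring
      _ = (((wt d i l ^ θ * ‖r l‖) ^ 2 : ℝ) : ℂ) := by
          rw [e1, e2]; push_cast; ring
  · apply Finset.sum_congr rfl; intro l _
    have hw := wt_pos hd i l
    have e1 : wt d i l ^ (1 - θ) * wt d i l ^ (2 * θ - 1) = wt d i l ^ θ := by
      rw [← Real.rpow_add hw]; congr 1; ring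
    rw [norm_mul, Complex.norm_real, Real.norm_eq_abs, abs_of_pos (Real.rpow_pos_of_pos hw _),
      norm_star, ← mul_assoc, e1]

lemma NN_nonneg {d : Fin 2 → ℝ} (hd : ∀ i, 0 < d i) (θ : ℝ) (z : A2) : 0 ≤ NN d θ z := by
  obtain ⟨f, C, hf, hfx⟩ := mem_interp hd (θ := θ) (J2.shift (st d) z)
  unfold NN JBWStarAlgebra.interpolationNorm
  refine le_csInf (Set.nonempty_of_mem (x := C) ⟨f, hf, hfx⟩) ?_
  rintro C ⟨f, hf, -⟩
  exact adm_nonneg hf

lemma le_of_dual {a b Q : ℝ} (hQ : 0 ≤ Q) (ha : 0 ≤ a) (h : Q ≤ a * b) (hb : b ≤ Real.sqrt Q) :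
    Real.sqrt Q ≤ a := by
  rcases hQ.eq_or_lt with h0 | hpos
  · rw [← h0, Real.sqrt_zero]; exact ha
  · have hs : 0 < Real.sqrt Q := Real.sqrt_pos.2 hpos
    have h1 : Real.sqrt Q * Real.sqrt Q ≤ a * Real.sqrt Q := by
      rw [Real.mul_self_sqrt hQ]
      exact h.trans (mul_le_mul_of_nonneg_left hb ha)
    exact le_of_mul_le_mul_right h1 hs

lemma NN_rowM {d : Fin 2 → ℝ} (hd : ∀ i, 0 < d i) {θ : ℝ} (h0 : 0 < θ) (h1 : θ < 1)
    (i : Fin 2) (r : Fin 2 → ℂ) :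
    NN d θ (rowM i r) = Real.sqrt (∑ l, (wt d i l ^ θ * ‖r l‖) ^ 2) := by
  apply le_antisymm (NN_rowM_le hd h0 h1 i r)
  obtain ⟨e1, e2⟩ := dual_coeff hd θ i r
  set c : Fin 2 → ℂ := fun l => ((wt d i l ^ (2 * θ - 1) : ℝ) : ℂ) * star (r l) with hc
  have h2 := duality hd h0 h1 (rowM i r) (colM i c)
  rw [shift_row_col, e1, Complex.norm_real, Real.norm_eq_abs, abs_of_nonneg (by positivity)] at h2
  have h3 := NN_colM_le hd (θ := 1 - θ) (by linarith) (by linarith) i c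
  rw [e2] at h3
  exact le_of_dual (by positivity) (NN_nonneg hd θ _) h2 h3

lemma NN_colM {d : Fin 2 → ℝ} (hd : ∀ i, 0 < d i) {θ : ℝ} (h0 : 0 < θ) (h1 : θ < 1)
    (i : Fin 2) (r : Fin 2 → ℂ) :
    NN d θ (colM i r) = Real.sqrt (∑ l, (wt d i l ^ θ * ‖r l‖) ^ 2) := by
  apply le_antisymm (NN_colM_le hd h0 h1 i r)
  obtain ⟨e1, e2⟩ := dual_coeff hd θ i r
  set c : Fin 2 → ℂ := fun l => ((wt d i l ^ (2 * θ - 1) : ℝ) : ℂ) * star (r l) with hc
  have h2 := duality hd h0 h1 (colM i r) (rowM i c)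
  rw [shift_symm, shift_row_col] at h2
  have e3 : ∑ l, ((wt d i l : ℝ) : ℂ) * c l * r l = ∑ l, ((wt d i l : ℝ) : ℂ) * r l * c l :=
    Finset.sum_congr rfl (fun l _ => by ring)
  rw [e3, e1, Complex.norm_real, Real.norm_eq_abs, abs_of_nonneg (by positivity)] at h2
  have h3 := NN_rowM_le hd (θ := 1 - θ) (by linarith) (by linarith) i c
  rw [e2] at h3
  exact le_of_dual (by positivity) (NN_nonneg hd θ _) h2 h3

lemma norm_st_le {d : Fin 2 → ℝ} (hd : ∀ i, 0 < d i) (hsum : d 0 + d 1 = 1) : ‖st d‖ ≤ 1 := by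
  apply ContinuousLinearMap.opNorm_le_bound _ zero_le_one
  intro y
  rw [st_apply, Fin.sum_univ_two]
  calc ‖((d 0 : ℝ) : ℂ) * y 0 0 + ((d 1 : ℝ) : ℂ) * y 1 1‖
      ≤ d 0 * ‖y 0 0‖ + d 1 * ‖y 1 1‖ := by
        refine (norm_add_le _ _).trans (le_of_eq ?_)
        rw [norm_mul, norm_mul, Complex.norm_real, Complex.norm_real, Real.norm_eq_abs,
          Real.norm_eq_abs, abs_of_pos (hd 0), abs_of_pos (hd 1)]
    _ ≤ d 0 * ‖y‖ + d 1 * ‖y‖ := by
        gcongr
        · exact (hd 0).le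
        · exact entry_le y 0 0
        · exact (hd 1).le
        · exact entry_le y 1 1
    _ = 1 * ‖y‖ := by rw [← add_mul, hsum]

lemma norm_shift_le (φ : StrongDual ℂ A2) (x : A2) : ‖J2.shift φ x‖ ≤ ‖φ‖ * ‖x‖ := by
  apply ContinuousLinearMap.opNorm_le_bound _ (by positivity)
  intro y
  rw [JBWStarAlgebra.shift_apply]
  calc ‖φ (J2.mul x y)‖ ≤ ‖φ‖ * ‖J2.mul x y‖ := φ.le_opNorm _
    _ ≤ ‖φ‖ * (‖x‖ * ‖y‖) := mul_le_mul_of_nonneg_left (J2.norm_mul_le x y) (norm_nonneg _)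
    _ = ‖φ‖ * ‖x‖ * ‖y‖ := by ring

lemma NN_le_one {d : Fin 2 → ℝ} (hd : ∀ i, 0 < d i) (hsum : d 0 + d 1 = 1) {θ : ℝ} (h0 : 0 < θ)
    (h1 : θ < 1) {x : A2} (hx : ‖x‖ ≤ 1) : NN d θ x ≤ 1 := by
  have := NN_le (d := d) h0 h1 (g := fun _ => x) (C := 1) (B := 1) (differentiable_const x)
    (fun _ _ _ => hx) (fun _ => hx) (fun _ => by
      refine (norm_shift_le _ _).trans ?_
      calc ‖st d‖ * ‖x‖ ≤ 1 * 1 := mul_le_mul (norm_st_le hd hsum) hx (norm_nonneg _) zero_le_one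
        _ = 1 := one_mul _)
  exact this

end Pool.Agent.Lib_helper48.JB
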