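import Pool.Agent.Lib_helper48.JB.Algebra

set_option autoImplicit false

/-!
Position of the images of the matrix units.
-/

namespace Pool.Agent.Lib_helper48.JB

open scoped Matrix.Norms.L2Operator

/-- linear independence of a pair -/
def Indep (A B : A2) : Prop := ∀ a b : ℂ, a • A + b • B = 0 → a = 0 ∧ b = 0

lemma mat_ext_zero {X : A2} (h00 : X 0 0 = 0) (h01 : X 0 1 = 0) (h10 : X 1 0 = 0)
    (h11 : X 1 1 = 0) : X = 0 := by
  ext i j
  fin_cases i <;> fin_cases j <;> assumption

lemma structure0 {s : Fin 2 → ℝ} {B C D : A2} (hs01 : s 0 * s 1 = 0) (hsne : dg s ≠ 0)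
    (hAB : ip (dg s) B = 0 ∧ pol (dg s) B = 0) (hAC : ip (dg s) C = 0 ∧ pol (dg s) C = 0)
    (hB : B.det = 0) (hC : C.det = 0) (hD : D.det = 0)
    (hBD : pol B D = 0) (hCD : pol C D = 0)
    (hBC : Indep B C) (hAD : Indep (dg s) D) :
    ip (dg s) D = 0 ∧ ip B C = 0 := by
  have ipA : ∀ X : A2, ip (dg s) X = (s 0 : ℂ) * X 0 0 + (s 1 : ℂ) * X 1 1 := by
    intro X
    unfold ip
    simp [Fin.sum_univ_two, dg_apply]
  have polA : ∀ X : A2, pol (dg s) X = (s 0 : ℂ) * X 1 1 + (s 1 : ℂ) * X 0 0 := by
    intro X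
    unfold pol
    simp [dg_apply]
  have hcase : (s 0 = 0 ∧ s 1 ≠ 0) ∨ (s 0 ≠ 0 ∧ s 1 = 0) := by
    rcases mul_eq_zero.1 hs01 with h | h
    · left; refine ⟨h, fun h1 => hsne ?_⟩
      apply mat_ext_zero <;> simp [dg_apply, h, h1]
    · right; refine ⟨fun h1 => hsne ?_, h⟩
      apply mat_ext_zero <;> simp [dg_apply, h, h1]
  have hdiag : ∀ X : A2, ip (dg s) X = 0 → pol (dg s) X = 0 → X 0 0 = 0 ∧ X 1 1 = 0 := by
    intro X h1 h2
    rw [ipA] at h1
    rw [polA] at h2
    rcases hcase with ⟨h, h'⟩ | ⟨h', h⟩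
    · have hne : (s 1 : ℂ) ≠ 0 := by exact_mod_cast h'
      rw [h] at h1 h2
      simp only [Complex.ofReal_zero, zero_mul, zero_add] at h1 h2
      exact ⟨(mul_eq_zero.1 h2).resolve_left hne, (mul_eq_zero.1 h1).resolve_left hne⟩
    · have hne : (s 0 : ℂ) ≠ 0 := by exact_mod_cast h'
      rw [h] at h1 h2
      simp only [Complex.ofReal_zero, zero_mul, add_zero] at h1 h2
      exact ⟨(mul_eq_zero.1 h1).resolve_left hne, (mul_eq_zero.1 h2).resolve_left hne⟩
  obtain ⟨hB00, hB11⟩ := hdiag B hAB.1 hAB.2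
  obtain ⟨hC00, hC11⟩ := hdiag C hAC.1 hAC.2
  have hBd : B 0 1 * B 1 0 = 0 := by
    rw [Matrix.det_fin_two, hB00, zero_mul, zero_sub, neg_eq_zero] at hB
    exact hB
  have hCd : C 0 1 * C 1 0 = 0 := by
    rw [Matrix.det_fin_two, hC00, zero_mul, zero_sub, neg_eq_zero] at hC
    exact hC
  have hBD' : B 0 1 * D 1 0 + B 1 0 * D 0 1 = 0 := by
    unfold pol at hBD; rw [hB00, hB11] at hBD
    linear_combination -hBD
  have hCD' : C 0 1 * D 1 0 + C 1 0 * D 0 1 = 0 := by
    unfold pol at hCD; rw [hC00, hC11] at hCD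
    linear_combination -hCD
  have hBne : B ≠ 0 := by
    rintro rfl
    have := hBC 1 0 (by simp)
    exact one_ne_zero this.1
  have hCne : C ≠ 0 := by
    rintro rfl
    have := hBC 0 1 (by simp)
    exact one_ne_zero this.2
  -- off diagonal entries of D vanish and B, C are orthogonal
  have hoff : D 0 1 = 0 ∧ D 1 0 = 0 ∧ ip B C = 0 := by
    rcases mul_eq_zero.1 hBd with hB01 | hB10
    · have hB10 : B 1 0 ≠ 0 := fun h => hBne (mat_ext_zero hB00 hB01 h hB11)
      have hC10 : C 1 0 = 0 := by
        by_contra hne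
        have hC01 : C 0 1 = 0 := (mul_eq_zero.1 hCd).resolve_right hne
        have := hBC (C 1 0) (-(B 1 0)) (by
          apply mat_ext_zero
          · simp [hB00, hC00]
          · simp [hB01, hC01]
          · simp only [Matrix.add_apply, Matrix.smul_apply, smul_eq_mul]; ring
          · simp [hB11, hC11])
        exact hne this.1
      have hC01 : C 0 1 ≠ 0 := fun h => hCne (mat_ext_zero hC00 h hC10 hC11)
      rw [hB01, zero_mul, zero_add] at hBD'
      rw [hC10, zero_mul, add_zero] at hCD'
      refine ⟨(mul_eq_zero.1 hBD').resolve_left hB10, (mul_eq_zero.1 hCD').resolve_left hC01, ?_⟩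
      unfold ip
      simp [Fin.sum_univ_two, hB00, hB01, hC10, hC11]
    · have hB01 : B 0 1 ≠ 0 := fun h => hBne (mat_ext_zero hB00 h hB10 hB11)
      have hC01 : C 0 1 = 0 := by
        by_contra hne
        have hC10 : C 1 0 = 0 := (mul_eq_zero.1 hCd).resolve_left hne
        have := hBC (C 0 1) (-(B 0 1)) (by
          apply mat_ext_zero
          · simp [hB00, hC00]
          · simp only [Matrix.add_apply, Matrix.smul_apply, smul_eq_mul]; ring
          · simp [hB10, hC10]
          · simp [hB11, hC11])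
        exact hne this.1
      have hC10 : C 1 0 ≠ 0 := fun h => hCne (mat_ext_zero hC00 hC01 h hC11)
      rw [hB10, zero_mul, add_zero] at hBD'
      rw [hC01, zero_mul, zero_add] at hCD'
      refine ⟨(mul_eq_zero.1 hCD').resolve_left hC10, (mul_eq_zero.1 hBD').resolve_left hB01, ?_⟩
      unfold ip
      simp [Fin.sum_univ_two, hB00, hB10, hC01, hC11]
  obtain ⟨hD01, hD10, hBC0⟩ := hoff
  refine ⟨?_, hBC0⟩
  have hDd : D 0 0 * D 1 1 = 0 := by
    rw [Matrix.det_fin_two, hD01, zero_mul, sub_zero] at hD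
    exact hD
  rw [ipA]
  rcases hcase with ⟨h, h'⟩ | ⟨h', h⟩
  · have hne : (s 1 : ℂ) ≠ 0 := by exact_mod_cast h'
    rw [h, Complex.ofReal_zero, zero_mul, zero_add]
    by_contra hcon
    have hD11 : D 1 1 ≠ 0 := fun h2 => hcon (by rw [h2, mul_zero])
    have hD00 : D 0 0 = 0 := (mul_eq_zero.1 hDd).resolve_right hD11
    have := hAD (D 1 1) (-(s 1 : ℂ)) (by
      apply mat_ext_zero
      · simp [dg_apply, h, hD00]
      · simp [dg_apply, hD01]
      · simp [dg_apply, hD10]
      · simp only [Matrix.add_apply, Matrix.smul_apply, smul_eq_mul, dg_apply, if_true]; ring)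
    exact hD11 this.1
  · have hne : (s 0 : ℂ) ≠ 0 := by exact_mod_cast h'
    rw [h, Complex.ofReal_zero, zero_mul, add_zero]
    by_contra hcon
    have hD00 : D 0 0 ≠ 0 := fun h2 => hcon (by rw [h2, mul_zero])
    have hD11 : D 1 1 = 0 := (mul_eq_zero.1 hDd).resolve_left hD00
    have := hAD (D 0 0) (-(s 0 : ℂ)) (by
      apply mat_ext_zero
      · simp only [Matrix.add_apply, Matrix.smul_apply, smul_eq_mul, dg_apply, if_true]; ring
      · simp [dg_apply, hD01]
      · simp [dg_apply, hD10]
      · simp [dg_apply, h, hD11])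
    exact hD00 this.1

lemma ip_eq_trace (X Y : A2) : ip X Y = Matrix.trace (star X * Y) := by
  unfold ip Matrix.trace
  simp only [Matrix.diag, Matrix.mul_apply, Matrix.star_apply]
  rw [Finset.sum_comm]

lemma ip_unitary {U V : A2} (hU : star U * U = 1) (hV : star V * V = 1) (X Y : A2) :
    ip (U * X * V) (U * Y * V) = ip X Y := by
  rw [ip_eq_trace, ip_eq_trace, star_mul, star_mul]
  have hV2 : V * star V = 1 := star_eq_one_of hV
  calc Matrix.trace (star V * (star X * star U) * (U * Y * V))
      = Matrix.trace (star V * (star X * (star U * U) * Y * V)) := by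
        simp only [mul_assoc]
    _ = Matrix.trace (star V * (star X * Y * V)) := by rw [hU, mul_one]
    _ = Matrix.trace (star X * Y * V * star V) := Matrix.trace_mul_comm _ _
    _ = Matrix.trace (star X * Y) := by rw [mul_assoc, hV2, mul_one]

lemma pol_eq (X Y : A2) : pol X Y = (X + Y).det - X.det - Y.det := by
  simp only [Matrix.det_fin_two, pol, Matrix.add_apply]
  ring

lemma pol_mul (U V X Y : A2) : pol (U * X * V) (U * Y * V) = U.det * V.det * pol X Y := by
  rw [pol_eq, pol_eq, ← add_mul, ← mul_add]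
  simp only [Matrix.det_mul]
  ring

lemma structure1 {A B C D : A2} (hA0 : A ≠ 0) (hA : A.det = 0)
    (hAB : ip A B = 0 ∧ pol A B = 0) (hAC : ip A C = 0 ∧ pol A C = 0)
    (hB : B.det = 0) (hC : C.det = 0) (hD : D.det = 0)
    (hBD : pol B D = 0) (hCD : pol C D = 0)
    (hBC : Indep B C) (hAD : Indep A D) :
    ip A D = 0 ∧ ip B C = 0 := by
  obtain ⟨U, V, s, hU, hV, hs0, hx⟩ := svd A
  have hU' : star (star U) * star U = 1 := by rw [star_star]; exact star_eq_one_of hU
  have hV' : star (star V) * star V = 1 := by rw [star_star]; exact star_eq_one_of hV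
  have hU2 : U * star U = 1 := star_eq_one_of hU
  have hV2 : V * star V = 1 := star_eq_one_of hV
  have hdetU : (star U).det ≠ 0 := by
    intro h
    have := congrArg Matrix.det hU
    rw [Matrix.det_mul, h, zero_mul, Matrix.det_one] at this
    exact one_ne_zero this.symm
  have hdetV : (star V).det ≠ 0 := by
    intro h
    have := congrArg Matrix.det hV
    rw [Matrix.det_mul, h, zero_mul, Matrix.det_one] at this
    exact one_ne_zero this.symm
  have hA' : star U * A * star V = dg s := by
    rw [hx]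
    calc star U * (U * dg s * V) * star V = (star U * U) * dg s * (V * star V) := by
          simp only [mul_assoc]
      _ = dg s := by rw [hU, hV2, one_mul, mul_one]
  have hback : ∀ X : A2, U * (star U * X * star V) * V = X := by
    intro X
    calc U * (star U * X * star V) * V = (U * star U) * X * (star V * V) := by
          simp only [mul_assoc]
      _ = X := by rw [hU2, hV, one_mul, mul_one]
  have hinj : ∀ X : A2, star U * X * star V = 0 → X = 0 := by
    intro X h
    have := hback X
    rw [h] at this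
    simpa using this.symm
  have hind : ∀ X Y : A2, Indep X Y → Indep (star U * X * star V) (star U * Y * star V) := by
    intro X Y h a b hab
    apply h a b
    apply hinj
    rw [← hab]
    simp only [mul_add, add_mul, mul_smul_comm, smul_mul_assoc]
  have hpol : ∀ X Y : A2, pol X Y = 0 → pol (star U * X * star V) (star U * Y * star V) = 0 := by
    intro X Y h
    rw [pol_mul, h, mul_zero]
  have hdet : ∀ X : A2, X.det = 0 → (star U * X * star V).det = 0 := by
    intro X h
    rw [Matrix.det_mul, Matrix.det_mul, h, mul_zero, zero_mul]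
  have hs01 : s 0 * s 1 = 0 := by
    have h1 := norm_det_mul hU' hV' A
    rw [hA', hA, norm_zero] at h1
    have h2 : (dg s).det = (s 0 : ℂ) * (s 1 : ℂ) := by
      unfold dg
      rw [Matrix.det_diagonal, Fin.prod_univ_two]
    rw [h2] at h1
    have h3 : (s 0 : ℂ) * (s 1 : ℂ) = 0 := norm_eq_zero.1 h1
    exact_mod_cast h3
  have hsne : dg s ≠ 0 := by
    intro h
    apply hA0
    rw [hx, h]; simp
  have key := structure0 (B := star U * B * star V) (C := star U * C * star V)
    (D := star U * D * star V) hs01 hsne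
    ⟨by rw [← hA', ip_unitary hU' hV']; exact hAB.1, by rw [← hA']; exact hpol _ _ hAB.2⟩
    ⟨by rw [← hA', ip_unitary hU' hV']; exact hAC.1, by rw [← hA']; exact hpol _ _ hAC.2⟩
    (hdet _ hB) (hdet _ hC) (hdet _ hD) (hpol _ _ hBD) (hpol _ _ hCD) (hind _ _ hBC)
    (by rw [← hA']; exact hind _ _ hAD)
  rw [← hA', ip_unitary hU' hV', ip_unitary hU' hV'] at key
  exact key

end Pool.Agent.Lib_helper48.JB
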