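import Pool.Agent.Lib_helper48.JB.Rows

set_option autoImplicit false

/-!
Singular value decomposition of two by two matrices.
-/

namespace Pool.Agent.Lib_helper48.JB

open Filter Topology
open scoped Matrix.Norms.L2Operator ComplexOrder

/-- real diagonal matrices -/
noncomputable def dg (s : Fin 2 → ℝ) : A2 := Matrix.diagonal (fun i => ((s i : ℝ) : ℂ))

lemma dg_apply (s : Fin 2 → ℝ) (i j : Fin 2) : dg s i j = if i = j then ((s i : ℝ) : ℂ) else 0 :=
  Matrix.diagonal_apply _ _ _

lemma unitary_of {p0 p1 q0 q1 : ℂ} (hp : star p0 * p0 + star p1 * p1 = 1)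
    (hq : star q0 * q0 + star q1 * q1 = 1) (hpq : star p0 * q0 + star p1 * q1 = 0) :
    star (!![p0, q0; p1, q1] : A2) * !![p0, q0; p1, q1] = 1 := by
  have hqp : star q0 * p0 + star q1 * p1 = 0 := by
    have := congrArg star hpq
    simp only [star_add, star_mul, star_star, star_zero] at this
    rw [← this]
  ext i j
  rw [Matrix.mul_apply, Fin.sum_univ_two]
  simp only [Matrix.star_apply]
  fin_cases i <;> fin_cases j
  · simpa using hp
  · simpa using hpq
  · simpa using hqp
  · simpa using hq

lemma complete_unitary (Y : A2) (s : Fin 2 → ℝ)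
    (h : star Y * Y = dg (fun i => s i ^ 2)) : ∃ U : A2, star U * U = 1 ∧ Y = U * dg s := by
  have h00 : star (Y 0 0) * Y 0 0 + star (Y 1 0) * Y 1 0 = ((s 0 : ℝ) : ℂ) ^ 2 := by
    have := congrFun (congrFun h 0) 0
    simpa [dg, Matrix.mul_apply, Fin.sum_univ_two] using this
  have h11 : star (Y 0 1) * Y 0 1 + star (Y 1 1) * Y 1 1 = ((s 1 : ℝ) : ℂ) ^ 2 := by
    have := congrFun (congrFun h 1) 1
    simpa [dg, Matrix.mul_apply, Fin.sum_univ_two] using this
  have h01 : star (Y 0 0) * Y 0 1 + star (Y 1 0) * Y 1 1 = 0 := by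
    have := congrFun (congrFun h 0) 1
    simpa [dg, Matrix.mul_apply, Fin.sum_univ_two] using this
  have hzero : ∀ j, s j = 0 → ∀ i, Y i j = 0 := by
    intro j hj i
    have h2 : ∑ i, ‖Y i j‖ ^ 2 = 0 := by
      have h3 := congrFun (congrFun h j) j
      rw [Matrix.mul_apply] at h3
      have h4 : ∑ i, star (Y i j) * Y i j = ((∑ i, ‖Y i j‖ ^ 2 : ℝ) : ℂ) := by
        push_cast
        exact Finset.sum_congr rfl (fun i _ => by rw [RCLike.star_def, Complex.conj_mul'])
      simp only [Matrix.star_apply] at h3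
      rw [h4] at h3
      simp only [dg, Matrix.diagonal_apply_eq, hj] at h3
      have h5 : ((∑ i, ‖Y i j‖ ^ 2 : ℝ) : ℂ) = ((0 : ℝ) : ℂ) := by rw [h3]; simp
      exact_mod_cast h5
    have h6 := (Finset.sum_eq_zero_iff_of_nonneg (fun i _ => sq_nonneg (‖Y i j‖))).1 h2 i
      (Finset.mem_univ i)
    exact norm_eq_zero.1 (pow_eq_zero_iff two_ne_zero |>.1 h6)
  have hconj : ∀ r : ℝ, star ((r : ℂ)) = (r : ℂ) := fun r => Complex.conj_ofReal r
  -- normalised columns
  have hnorm : ∀ a b : ℂ, ∀ r : ℝ, r ≠ 0 → star a * a + star b * b = ((r : ℝ) : ℂ) ^ 2 →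
      star (a / r) * (a / r) + star (b / r) * (b / r) = 1 := by
    intro a b r hr hab
    have hr' : (r : ℂ) ≠ 0 := by exact_mod_cast hr
    rw [star_div₀, star_div₀, hconj]
    field_simp
    exact hab
  by_cases hs0 : s 0 = 0
  · by_cases hs1 : s 1 = 0
    · refine ⟨1, by simp, ?_⟩
      ext i j
      fin_cases j
      · simp [dg, hzero 0 hs0 i, hs0]
      · simp [dg, hzero 1 hs1 i, hs1]
    · have hr' : ((s 1 : ℝ) : ℂ) ≠ 0 := by exact_mod_cast hs1
      have hq := hnorm (Y 0 1) (Y 1 1) (s 1) hs1 h11
      set q0 := Y 0 1 / s 1 with hq0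
      set q1 := Y 1 1 / s 1 with hq1
      refine ⟨!![-star q1, q0; star q0, q1], ?_, ?_⟩
      · apply unitary_of
        · rw [star_neg, star_star, star_star]
          linear_combination hq
        · exact hq
        · rw [star_neg, star_star, star_star]; ring
      · ext i j
        fin_cases j
        · rw [show Y i ((fun i => i) ⟨0, by decide⟩) = 0 from hzero 0 hs0 i]
          simp [dg, hs0]
        · fin_cases i
          · simp [dg, hq0]; field_simp
          · simp [dg, hq1]; field_simp
  · by_cases hs1 : s 1 = 0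
    · have hr' : ((s 0 : ℝ) : ℂ) ≠ 0 := by exact_mod_cast hs0
      have hp := hnorm (Y 0 0) (Y 1 0) (s 0) hs0 h00
      set p0 := Y 0 0 / s 0 with hp0
      set p1 := Y 1 0 / s 0 with hp1
      refine ⟨!![p0, -star p1; p1, star p0], ?_, ?_⟩
      · apply unitary_of
        · exact hp
        · rw [star_neg, star_star, star_star]
          linear_combination hp
        · ring
      · ext i j
        fin_cases j
        · fin_cases i
          · simp [dg, hp0]; field_simp
          · simp [dg, hp1]; field_simp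
        · rw [show Y i ((fun i => i) ⟨1, by decide⟩) = 0 from hzero 1 hs1 i]
          simp [dg, hs1]
    · have hr0 : ((s 0 : ℝ) : ℂ) ≠ 0 := by exact_mod_cast hs0
      have hr1 : ((s 1 : ℝ) : ℂ) ≠ 0 := by exact_mod_cast hs1
      have hp := hnorm (Y 0 0) (Y 1 0) (s 0) hs0 h00
      have hq := hnorm (Y 0 1) (Y 1 1) (s 1) hs1 h11
      refine ⟨!![Y 0 0 / s 0, Y 0 1 / s 1; Y 1 0 / s 0, Y 1 1 / s 1], ?_, ?_⟩
      · apply unitary_of hp hq
        rw [star_div₀, star_div₀, hconj]
        field_simp
        rw [h01, mul_zero]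
      · ext i j
        fin_cases j <;> fin_cases i <;> simp [dg] <;> field_simp

lemma star_eq_one_of {U : A2} (h : star U * U = 1) : U * star U = 1 :=
  mul_eq_one_comm.1 h

lemma svd (x : A2) : ∃ (U V : A2) (s : Fin 2 → ℝ), star U * U = 1 ∧ star V * V = 1 ∧
    (∀ i, 0 ≤ s i) ∧ x = U * dg s * V := by
  have hH : (star x * x).IsHermitian := by
    rw [Matrix.IsHermitian, Matrix.conjTranspose_mul]; simp [Matrix.star_eq_conjTranspose]
  have hP : (star x * x).PosSemidef := Matrix.posSemidef_conjTranspose_mul_self x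
  set W : A2 := (hP.1.eigenvectorUnitary : A2) with hW
  set lam := hP.1.eigenvalues with hlam
  have hW1 : star W * W = 1 := by
    have := (hP.1.eigenvectorUnitary).2
    exact (Matrix.mem_unitaryGroup_iff').1 this
  have hW2 : W * star W = 1 := star_eq_one_of hW1
  have hspec : star x * x = W * dg lam * star W := by
    have := hP.1.spectral_theorem
    rw [this, Unitary.conjStarAlgAut_apply]
    rfl
  set s : Fin 2 → ℝ := fun i => Real.sqrt (lam i) with hs
  have hs2 : (fun i => s i ^ 2) = lam := by
    funext i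
    exact Real.sq_sqrt (hP.eigenvalues_nonneg i)
  have hY : star (x * W) * (x * W) = dg (fun i => s i ^ 2) := by
    rw [hs2, star_mul]
    calc star W * star x * (x * W) = star W * (star x * x) * W := by simp only [mul_assoc]
      _ = star W * (W * dg lam * star W) * W := by rw [hspec]
      _ = (star W * W) * dg lam * (star W * W) := by simp only [mul_assoc]
      _ = dg lam := by rw [hW1, one_mul, mul_one]
  obtain ⟨U, hU, hYU⟩ := complete_unitary (x * W) s hY
  refine ⟨U, star W, s, hU, by rw [star_star]; exact hW2, fun i => Real.sqrt_nonneg _, ?_⟩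
  calc x = x * (W * star W) := by rw [hW2, mul_one]
    _ = (x * W) * star W := by rw [mul_assoc]
    _ = U * dg s * star W := by rw [hYU]

end Pool.Agent.Lib_helper48.JB
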