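import Pool.Agent.Lib_helper48.JB.Svd

set_option autoImplicit false

/-!
The interpolation norm for the normalised trace.
-/

namespace Pool.Agent.Lib_helper48.JB

open Filter Topology
open scoped Matrix.Norms.L2Operator

/-- the weights of the normalised trace -/
noncomputable def dt : Fin 2 → ℝ := fun _ => 1 / 2

lemma dt_pos : ∀ i, 0 < dt i := fun _ => by unfold dt; norm_num

lemma shift_dt (x y : A2) : J2.shift (st dt) x y = (1 / 2 : ℂ) * Matrix.trace (x * y) := by
  rw [shift_st]
  simp only [Fin.sum_univ_two, wt, dt, Matrix.trace, Matrix.diag, Matrix.mul_apply]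
  push_cast
  ring

lemma norm_unitary_mul {U V : A2} (hU : star U * U = 1) (hV : star V * V = 1) (x : A2) :
    ‖U * x * V‖ ≤ ‖x‖ := by
  have h1 : ∀ W : A2, star W * W = 1 → ‖W‖ ≤ 1 := by
    intro W hW
    have h2 : ‖W‖ * ‖W‖ = ‖(1 : A2)‖ := by rw [← CStarRing.norm_star_mul_self, hW]
    have h3 : ‖(1 : A2)‖ ≤ 1 := by
      have := norm_diag_le (fun _ => (1 : ℂ)) zero_le_one (fun _ => by simp)
      rwa [Matrix.diagonal_one] at this
    nlinarith [norm_nonneg W]
  calc ‖U * x * V‖ ≤ ‖U * x‖ * ‖V‖ := norm_mul_le _ _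
    _ ≤ (‖U‖ * ‖x‖) * ‖V‖ := mul_le_mul_of_nonneg_right (norm_mul_le _ _) (norm_nonneg _)
    _ ≤ (1 * ‖x‖) * 1 := by
        apply mul_le_mul _ (h1 V hV) (norm_nonneg _) (by positivity)
        exact mul_le_mul_of_nonneg_right (h1 U hU) (norm_nonneg _)
    _ = ‖x‖ := by ring

lemma norm_shift_dt {U V : A2} (hU : star U * U = 1) (hV : star V * V = 1) (v : Fin 2 → ℂ) :
    ‖J2.shift (st dt) (U * Matrix.diagonal v * V)‖ ≤ (1 / 2) * ∑ i, ‖v i‖ := by
  apply ContinuousLinearMap.opNorm_le_bound _ (by positivity)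
  intro y
  rw [shift_dt]
  have h1 : Matrix.trace (U * Matrix.diagonal v * V * y) = ∑ i, v i * (V * y * U) i i := by
    rw [show U * Matrix.diagonal v * V * y = U * (Matrix.diagonal v * V * y) by
      simp only [mul_assoc], Matrix.trace_mul_comm,
      show Matrix.diagonal v * V * y * U = Matrix.diagonal v * (V * y * U) by
        simp only [mul_assoc]]
    simp [Matrix.trace, Matrix.diag, Fin.sum_univ_two]
  rw [h1, norm_mul]
  have h2 : ‖(1 / 2 : ℂ)‖ = 1 / 2 := by norm_num
  rw [h2, mul_assoc (1 / 2 : ℝ)]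
  apply mul_le_mul_of_nonneg_left _ (by norm_num)
  rw [Finset.sum_mul]
  refine (norm_sum_le _ _).trans (Finset.sum_le_sum (fun i _ => ?_))
  rw [norm_mul]
  apply mul_le_mul_of_nonneg_left _ (norm_nonneg _)
  exact (entry_le _ i i).trans (norm_unitary_mul hV hU y)

/-- powers of nonnegative reals, zero at zero -/
noncomputable def ps (s : ℝ) (z : ℂ) : ℂ := if s = 0 then 0 else pw s z

lemma ps_diff (s : ℝ) : Differentiable ℂ (ps s) := by
  unfold ps
  split_ifs
  · exact differentiable_const 0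
  · exact pw_diff s

lemma norm_ps {s : ℝ} (hs : 0 ≤ s) {z : ℂ} (hz : 0 < z.re) : ‖ps s z‖ = s ^ z.re := by
  unfold ps
  split_ifs with h
  · rw [h, norm_zero, Real.zero_rpow hz.ne']
  · exact norm_pw (lt_of_le_of_ne hs (Ne.symm h)) z

lemma norm_ps_zero {s : ℝ} (hs : 0 ≤ s) {z : ℂ} (hz : z.re = 0) : ‖ps s z‖ ≤ 1 := by
  unfold ps
  split_ifs with h
  · simp
  · rw [norm_pw (lt_of_le_of_ne hs (Ne.symm h)) z, hz, Real.rpow_zero]

lemma ps_one {s : ℝ} (hs : 0 ≤ s) : ps s 1 = s := by
  unfold ps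
  split_ifs with h
  · rw [h]; simp
  · unfold pw
    rw [one_mul, ← Complex.ofReal_exp, Real.exp_log (lt_of_le_of_ne hs (Ne.symm h))]

lemma NN_dt_le {U V : A2} (hU : star U * U = 1) (hV : star V * V = 1) {s : Fin 2 → ℝ}
    (hs : ∀ i, 0 ≤ s i) {θ : ℝ} (h0 : 0 < θ) (h1 : θ < 1)
    (hpos : 0 < (1 / 2) * ∑ i, s i ^ (1 / θ)) :
    NN dt θ (U * dg s * V) ≤ ((1 / 2) * ∑ i, s i ^ (1 / θ)) ^ θ := by
  set L := (1 / 2) * ∑ i, s i ^ (1 / θ) with hL
  set g : ℂ → A2 := fun z => pw L (θ - z) • (U * Matrix.diagonal (fun i => ps (s i) (z / θ)) * V)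
    with hg
  have hθ' : (θ : ℂ) ≠ 0 := by exact_mod_cast h0.ne'
  have hgθ : g θ = U * dg s * V := by
    simp only [hg, sub_self, pw_zero, one_smul, div_self hθ', dg]
    congr 3
    funext i
    exact ps_one (hs i)
  rw [← hgθ]
  have hgd : Differentiable ℂ g := by
    have h2 : ∀ z : ℂ, Matrix.diagonal (fun i => ps (s i) (z / θ))
        = ∑ i, ps (s i) (z / θ) • (Matrix.single i i (1 : ℂ) : A2) := by
      intro z
      ext k m
      simp only [Fin.sum_univ_two, Matrix.add_apply, Matrix.smul_apply,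
        Matrix.single_apply, smul_eq_mul, Matrix.diagonal_apply]
      fin_cases k <;> fin_cases m <;> simp
    have h3 : Differentiable ℂ (fun z : ℂ =>
        (Matrix.diagonal (fun i => ps (s i) (z / θ)) : A2)) := by
      rw [funext h2]
      apply Differentiable.fun_sum
      intro l _
      apply Differentiable.smul_const
      exact (ps_diff _).comp (by fun_prop)
    apply Differentiable.fun_smul
    · exact (pw_diff _).comp (by fun_prop)
    · have h4 : Differentiable ℂ (fun y : A2 => U * y * V) := by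
        have h5 : (fun y : A2 => U * y * V) = fun y => LinearMap.toContinuousLinearMap
            ((LinearMap.mulRight ℂ V).comp (LinearMap.mulLeft ℂ U)) y := by
          funext y; simp
        rw [h5]
        exact (LinearMap.toContinuousLinearMap
            ((LinearMap.mulRight ℂ V).comp (LinearMap.mulLeft ℂ U))).differentiable
      exact h4.comp h3
  have hre : ∀ z : ℂ, (z / θ).re = z.re / θ := fun z => Complex.div_ofReal_re z θ
  refine NN_le h0 h1 (B := (L ^ θ + L ^ (θ - 1)) * ((1 + (s 0) ^ (1 / θ)) + (1 + (s 1) ^ (1 / θ))))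
    hgd ?_ ?_ ?_
  · intro z hz0 hz1
    simp only [hg]
    rw [norm_smul]
    apply mul_le_mul (pw_bdd hpos z hz0 hz1) _ (norm_nonneg _) (by positivity)
    refine (norm_unitary_mul hU hV _).trans ?_
    have hb : ∀ i, ‖ps (s i) (z / θ)‖ ≤ 1 + s i ^ (1 / θ) := by
      intro i
      have hp : 0 ≤ s i ^ (1 / θ) := Real.rpow_nonneg (hs i) _
      rcases hz0.eq_or_lt with h | h
      · have := norm_ps_zero (hs i) (z := z / θ) (by rw [hre, ← h, zero_div])
        linarith
      · rw [norm_ps (hs i) (by rw [hre]; positivity), hre]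
        rcases le_total 1 (s i) with h5 | h5
        · have : s i ^ (z.re / θ) ≤ s i ^ (1 / θ) :=
            Real.rpow_le_rpow_of_exponent_le h5 (by gcongr)
          linarith
        · have : s i ^ (z.re / θ) ≤ 1 := Real.rpow_le_one (hs i) h5 (by positivity)
          linarith
    apply norm_diag_le
    · have := Real.rpow_nonneg (hs 0) (1 / θ)
      have := Real.rpow_nonneg (hs 1) (1 / θ)
      linarith
    · intro i
      have e0 := Real.rpow_nonneg (hs 0) (1 / θ)
      have e1 := Real.rpow_nonneg (hs 1) (1 / θ)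
      refine (hb i).trans ?_
      fin_cases i
      · show 1 + s 0 ^ (1 / θ) ≤ _
        linarith
      · show 1 + s 1 ^ (1 / θ) ≤ _
        linarith
  · intro t
    simp only [hg]
    rw [norm_smul, norm_pw hpos]
    have e1 : ((θ : ℂ) - (t : ℂ) * Complex.I).re = θ := by simp
    rw [e1]
    calc L ^ θ * ‖U * Matrix.diagonal (fun i => ps (s i) ((t : ℂ) * Complex.I / θ)) * V‖
        ≤ L ^ θ * 1 := by
          apply mul_le_mul_of_nonneg_left _ (Real.rpow_nonneg hpos.le _)
          refine (norm_unitary_mul hU hV _).trans ?_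
          apply norm_diag_le _ zero_le_one
          intro i
          apply norm_ps_zero (hs i)
          rw [hre]; simp
      _ = L ^ θ := mul_one _
  · intro t
    simp only [hg]
    rw [JBWStarAlgebra.shift_smul, norm_smul, norm_pw hpos]
    have e1 : ((θ : ℂ) - (1 + (t : ℂ) * Complex.I)).re = θ - 1 := by simp
    rw [e1]
    have e2 : ∀ i, ‖ps (s i) ((1 + (t : ℂ) * Complex.I) / θ)‖ = s i ^ (1 / θ) := by
      intro i
      have e3 : ((1 + (t : ℂ) * Complex.I) / θ).re = 1 / θ := by rw [hre]; simp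
      rw [norm_ps (hs i) (by rw [e3]; positivity), e3]
    calc L ^ (θ - 1) * ‖J2.shift (st dt)
          (U * Matrix.diagonal (fun i => ps (s i) ((1 + (t : ℂ) * Complex.I) / θ)) * V)‖
        ≤ L ^ (θ - 1) * L := by
          apply mul_le_mul_of_nonneg_left _ (Real.rpow_nonneg hpos.le _)
          refine (norm_shift_dt hU hV _).trans (le_of_eq ?_)
          simp_rw [e2]
          rfl
      _ = L ^ θ := by rw [Real.rpow_sub_one hpos.ne', div_mul_cancel₀ _ hpos.ne']

/-- Hilbert-Schmidt norm squared -/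
noncomputable def hs (x : A2) : ℝ := ∑ i, ∑ j, ‖x i j‖ ^ 2

lemma hs_eq (x : A2) : ((hs x : ℝ) : ℂ) = Matrix.trace (star x * x) := by
  unfold hs Matrix.trace
  simp only [Matrix.diag, Matrix.mul_apply, Matrix.star_apply]
  push_cast
  rw [Finset.sum_comm]
  apply Finset.sum_congr rfl; intro j _
  apply Finset.sum_congr rfl; intro i _
  rw [RCLike.star_def, Complex.conj_mul']

lemma hs_unitary {U V : A2} (hU : star U * U = 1) (hV : star V * V = 1) (x : A2) :
    hs (U * x * V) = hs x := by
  have h1 : ((hs (U * x * V) : ℝ) : ℂ) = ((hs x : ℝ) : ℂ) := by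
    rw [hs_eq, hs_eq, star_mul, star_mul]
    have hV2 : V * star V = 1 := star_eq_one_of hV
    calc Matrix.trace (star V * (star x * star U) * (U * x * V))
        = Matrix.trace (star V * (star x * (star U * U) * x * V)) := by
          simp only [mul_assoc]
      _ = Matrix.trace (star V * (star x * x * V)) := by rw [hU, mul_one]
      _ = Matrix.trace (star x * x * V * star V) := Matrix.trace_mul_comm _ _
      _ = Matrix.trace (star x * x) := by rw [mul_assoc, hV2, mul_one]
  exact_mod_cast h1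

lemma norm_det_unitary {U : A2} (hU : star U * U = 1) : ‖U.det‖ = 1 := by
  have h1 := congrArg Matrix.det hU
  rw [Matrix.det_mul, Matrix.det_one, Matrix.star_eq_conjTranspose, Matrix.det_conjTranspose,
    RCLike.star_def, Complex.conj_mul'] at h1
  have h2 : ‖U.det‖ ^ 2 = 1 := by exact_mod_cast h1
  have h3 := norm_nonneg U.det
  nlinarith

lemma norm_det_mul {U V : A2} (hU : star U * U = 1) (hV : star V * V = 1) (x : A2) :
    ‖(U * x * V).det‖ = ‖x.det‖ := by
  rw [Matrix.det_mul, Matrix.det_mul, norm_mul, norm_mul, norm_det_unitary hU,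
    norm_det_unitary hV, one_mul, mul_one]

/-- the formula for the tracial norm, `p = 4` -/
lemma NN_dt (x : A2) : NN dt (1 / 4) x ^ 4 = (1 / 2) * (hs x ^ 2 - 2 * ‖x.det‖ ^ 2) := by
  obtain ⟨U, V, s, hU, hV, hs0, hx⟩ := svd x
  have hhs : hs x = s 0 ^ 2 + s 1 ^ 2 := by
    rw [hx, hs_unitary hU hV]
    unfold hs
    simp [Fin.sum_univ_two, dg_apply]
  have hdet : ‖x.det‖ = s 0 * s 1 := by
    rw [hx, norm_det_mul hU hV]
    unfold dg
    rw [Matrix.det_diagonal, Fin.prod_univ_two, norm_mul, Complex.norm_real, Complex.norm_real,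
      Real.norm_eq_abs, Real.norm_eq_abs, abs_of_nonneg (hs0 0), abs_of_nonneg (hs0 1)]
  have hR : (1 / 2) * (hs x ^ 2 - 2 * ‖x.det‖ ^ 2) = (1 / 2) * ∑ i, s i ^ 4 := by
    rw [hhs, hdet, Fin.sum_univ_two]; ring
  rw [hR]
  set Q := (1 / 2) * ∑ i, s i ^ 4 with hQ
  have hQ0 : 0 ≤ Q := by
    rw [hQ, Fin.sum_univ_two]
    have := hs0 0; have := hs0 1
    positivity
  have hNN := NN_nonneg dt_pos (1 / 4) x
  have e4 : ∀ i, s i ^ (1 / (1 / 4 : ℝ)) = s i ^ 4 := by
    intro i
    rw [show (1 / (1 / 4 : ℝ)) = ((4 : ℕ) : ℝ) by norm_num, Real.rpow_natCast]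
  rcases hQ0.eq_or_lt with h | hpos
  · -- x = 0
    have hs4 : s 0 = 0 ∧ s 1 = 0 := by
      rw [hQ, Fin.sum_univ_two] at h
      have h0 : 0 ≤ s 0 ^ 4 := by have := hs0 0; positivity
      have h1 : 0 ≤ s 1 ^ 4 := by have := hs0 1; positivity
      exact ⟨pow_eq_zero_iff (n := 4) (by norm_num) |>.1 (by linarith),
        pow_eq_zero_iff (n := 4) (by norm_num) |>.1 (by linarith)⟩
    have hx0 : x = 0 := by
      rw [hx]
      have : dg s = 0 := by
        ext i j
        fin_cases i <;> fin_cases j <;> simp [dg, hs4.1, hs4.2]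
      rw [this]; simp
    have h2 := NN_le (d := dt) (θ := 1 / 4) (by norm_num) (by norm_num) (g := fun _ => (0 : A2))
      (C := 0) (B := 0) (differentiable_const 0) (by simp) (by simp) (fun _ => by
        refine (norm_shift_le _ _).trans ?_
        simp)
    rw [hx0, ← h]
    have h3 : NN dt (1 / 4) 0 = 0 := by
      rw [hx0] at hNN
      exact le_antisymm (by simpa using h2) hNN
    rw [h3]; norm_num
  · have hup : NN dt (1 / 4) x ≤ Q ^ (1 / 4 : ℝ) := by
      have hQ' : (1 / 2) * ∑ i, s i ^ (1 / (1 / 4 : ℝ)) = Q := by simp_rw [e4]; rfl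
      have := NN_dt_le hU hV hs0 (θ := 1 / 4) (by norm_num) (by norm_num) (by rw [hQ']; exact hpos)
      rw [hQ', ← hx] at this
      exact this
    have hlow : Q ^ (1 / 4 : ℝ) ≤ NN dt (1 / 4) x := by
      set s3 : Fin 2 → ℝ := fun i => s i ^ 3 with hs3
      have hs30 : ∀ i, 0 ≤ s3 i := fun i => by have := hs0 i; simp only [hs3]; positivity
      have e3 : ∀ i, s3 i ^ (1 / (1 - 1 / 4 : ℝ)) = s i ^ 4 := by
        intro i
        simp only [hs3]
        rw [← Real.rpow_natCast (s i) 3, ← Real.rpow_mul (hs0 i), ← Real.rpow_natCast (s i) 4]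
        congr 1
        norm_num
      have hUs : star (star U) * star U = 1 := by rw [star_star]; exact star_eq_one_of hU
      have hVs : star (star V) * star V = 1 := by rw [star_star]; exact star_eq_one_of hV
      have hQ' : (1 / 2) * ∑ i, s3 i ^ (1 / (1 - 1 / 4 : ℝ)) = Q := by simp_rw [e3]; rfl
      have h3 := NN_dt_le hVs hUs hs30 (θ := 1 - 1 / 4) (by norm_num) (by norm_num)
        (by rw [hQ']; exact hpos)
      rw [hQ'] at h3
      have h2 := duality dt_pos (θ := 1 / 4) (by norm_num) (by norm_num) x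
        (star V * dg s3 * star U)
      have h5 : J2.shift (st dt) x (star V * dg s3 * star U) = ((Q : ℝ) : ℂ) := by
        rw [shift_dt, hx]
        have hV2 : V * star V = 1 := star_eq_one_of hV
        have e5 : U * dg s * V * (star V * dg s3 * star U) = U * (dg s * dg s3) * star U := by
          calc U * dg s * V * (star V * dg s3 * star U)
              = U * dg s * (V * star V) * dg s3 * star U := by simp only [mul_assoc]
            _ = U * (dg s * dg s3) * star U := by rw [hV2, mul_one]; simp only [mul_assoc]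
        rw [e5, mul_assoc, Matrix.trace_mul_comm, mul_assoc, hU, mul_one]
        unfold dg
        rw [Matrix.diagonal_mul_diagonal, Matrix.trace_diagonal, hQ]
        push_cast
        congr 1
        apply Finset.sum_congr rfl; intro i _
        simp only [hs3]; push_cast; ring
      rw [h5, Complex.norm_real, Real.norm_eq_abs, abs_of_nonneg hQ0] at h2
      have h6 : Q ≤ NN dt (1 / 4) x * Q ^ (1 - 1 / 4 : ℝ) :=
        h2.trans (mul_le_mul_of_nonneg_left h3 hNN)
      have h7 : Q = Q ^ (1 / 4 : ℝ) * Q ^ (1 - 1 / 4 : ℝ) := by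
        rw [← Real.rpow_add hpos]; norm_num
      have h8 : 0 < Q ^ (1 - 1 / 4 : ℝ) := Real.rpow_pos_of_pos hpos _
      have h9 : Q ^ (1 / 4 : ℝ) * Q ^ (1 - 1 / 4 : ℝ) ≤ NN dt (1 / 4) x * Q ^ (1 - 1 / 4 : ℝ) := by
        rw [← h7]; exact h6
      exact le_of_mul_le_mul_right h9 h8
    rw [le_antisymm hup hlow, ← Real.rpow_natCast, ← Real.rpow_mul hQ0]
    norm_num

end Pool.Agent.Lib_helper48.JB
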